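import Pool.Agent.Helper96.GU.St
import Pool.Agent.Helper96.UT.Fin

/-!
Project GU (MP_2c90c1_al): final assembly, from the statements of the modules.
-/

set_option autoImplicit false

namespace Pool.Agent.Helper96.GU

open Pool.Agent.Helper96.UT

variable {α : Type}

/-- Membership in `Ns` is membership in the normal closure inside `HU r`. -/
theorem Ns_le {L : Subgroup (FreeGroup α)} {Z : Cyc α} (x : L) (hx : (x : FreeGroup α) = Z.s) :
    Ns L Z ≤ (Subgroup.normalClosure ({x} : Set L)).map L.subtype := by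
  refine (Subgroup.closure_le _).2 ?_
  rintro _ ⟨g, hg, rfl⟩
  refine ⟨⟨g, hg⟩ * x * ⟨g, hg⟩⁻¹, ?_, ?_⟩
  · exact (Subgroup.normalClosure_normal).conj_mem _
      (Subgroup.subset_normalClosure (Set.mem_singleton x)) _
  · simp [hx]

theorem gen_of_GEN (hGEN : UT.StGEN) (r : FreeMonoid (α × Bool)) (Z : Cyc α) (l : ℕ)
    (hr : FreeMonoid.toList r = seg Z.c 0 (l * Z.n)) : Gen (HU r) Z := fun h hh => by
  exact hGEN α r Z l hr h hh

/-- If every element of `L` in the normal closure of `s` in `F` is in the one in `L`, the units are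
`L` modulo one relator. -/
theorem units_of_le (hPSI : UT.StPSI) (hFGF : UT.StFGF) (hPRES : UT.StPRES)
    (r : FreeMonoid (α × Bool)) (Z : Cyc α) (hr : FreeMonoid.toList r = seg Z.c 0 (1 * Z.n))
    (hs : Z.s ∈ HU r)
    (hle : ∀ w ∈ HU r, w ∈ Subgroup.normalClosure ({Z.s} : Set (FreeGroup α)) →
      w ∈ Ns (HU r) Z) :
    ∃ (n : ℕ) (s : FreeGroup (Fin n)),
      Nonempty ((IM r)ˣ ≃* PresentedGroup ({s} : Set (FreeGroup (Fin n)))) := by
  have hmk : FreeGroup.mk (FreeMonoid.toList r) = Z.s := by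
    rw [mk_r hr, pow_one]
  obtain ⟨Ψ, hsurj, h2, -, h4⟩ := hPSI α r
  let x : HU r := ⟨Z.s, hs⟩
  have hx : (x : FreeGroup α) = Z.s := rfl
  have hker : Ψ.ker = Subgroup.normalClosure ({x ^ 1} : Set (HU r)) := by
    rw [pow_one]
    apply le_antisymm
    · intro h hh
      rw [MonoidHom.mem_ker] at hh
      have h5 := h4 h hh
      rw [hmk] at h5
      obtain ⟨y, hy, hy2⟩ := Ns_le x hx (hle h h.2 h5)
      have : y = h := Subtype.ext hy2
      rw [← this]
      exact hy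
    · refine Subgroup.normalClosure_le_normal ?_
      intro y hy
      rw [Set.mem_singleton_iff] at hy
      rw [hy]
      change x ∈ Ψ.ker
      rw [MonoidHom.mem_ker]
      apply Units.ext
      rw [h2 x (FreeMonoid.toList r) (by rw [hmk, hx]) (by rw [io_r]; exact isUnit_one), io_r]
      rfl
  obtain ⟨p, ⟨e⟩⟩ := hFGF α (HU r) (HU_fg _)
  exact ⟨p, (e x) ^ 1, hPRES (HU r) p e (IM r)ˣ Ψ hsurj x 1 hker⟩

/-- If `L` modulo the normal closure of `s` is cyclic, the units are cyclic. -/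
theorem units_of_cyc (hPSI : UT.StPSI) (hCYG : StCYG) (r : FreeMonoid (α × Bool)) (Z : Cyc α)
    (hr : FreeMonoid.toList r = seg Z.c 0 (1 * Z.n)) (hs : Z.s ∈ HU r)
    (hc : ∃ a ∈ HU r, ∀ h ∈ HU r, ∃ m : ℤ, h * (a ^ m)⁻¹ ∈ Ns (HU r) Z) :
    ∃ (n : ℕ) (s : FreeGroup (Fin n)),
      Nonempty ((IM r)ˣ ≃* PresentedGroup ({s} : Set (FreeGroup (Fin n)))) := by
  have hmk : FreeGroup.mk (FreeMonoid.toList r) = Z.s := by
    rw [mk_r hr, pow_one]
  obtain ⟨Ψ, hsurj, h2, -, -⟩ := hPSI α r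
  let x : HU r := ⟨Z.s, hs⟩
  have hx : (x : FreeGroup α) = Z.s := rfl
  have hxk : Ψ x = 1 := by
    apply Units.ext
    rw [h2 x (FreeMonoid.toList r) (by rw [hmk, hx]) (by rw [io_r]; exact isUnit_one), io_r]
    rfl
  have hker : ∀ h : HU r, (h : FreeGroup α) ∈ Ns (HU r) Z → Ψ h = 1 := by
    intro h hh
    obtain ⟨y, hy, hy2⟩ := Ns_le x hx hh
    have e : y = h := Subtype.ext hy2
    rw [← e]
    have hle : Subgroup.normalClosure ({x} : Set (HU r)) ≤ Ψ.ker := by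
      refine Subgroup.normalClosure_le_normal ?_
      intro y hy
      rw [Set.mem_singleton_iff] at hy
      rw [hy]
      exact hxk
    exact hle hy
  obtain ⟨a, ha, hc⟩ := hc
  obtain ⟨s, hs⟩ := hCYG (IM r)ˣ (Ψ ⟨a, ha⟩) (by
    intro y
    obtain ⟨h, rfl⟩ := hsurj y
    obtain ⟨m, hm⟩ := hc h h.2
    refine ⟨m, ?_⟩
    have := hker (h * ((⟨a, ha⟩ : HU r) ^ m)⁻¹) (by simpa using hm)
    rw [map_mul, map_inv, map_zpow, mul_inv_eq_one] at this
    exact this)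
  exact ⟨1, s, hs⟩

/-- The common part of the two theorems. -/
theorem guFinal (hIM2 : UT.StIM2) (hPSI : UT.StPSI) (hRIG : UT.StRIG) (hGEN : UT.StGEN)
    (hFGF : UT.StFGF) (hPRES : UT.StPRES) (hEXZ : UT.StEXZ) (hIND : UT.StIND) (hRTZ : StRTZ)
    (r : FreeMonoid (α × Bool))
    (h1 : ∀ p ∈ (FreeMonoid.toList r).zip (FreeMonoid.toList r).tail,
        ¬ (p.1.1 = p.2.1 ∧ p.1.2 ≠ p.2.2))
    (h2 : ∀ a b : α × Bool, (FreeMonoid.toList r).head? = some a →
        (FreeMonoid.toList r).getLast? = some b → ¬ (a.1 = b.1 ∧ a.2 ≠ b.2))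
    (key : ∀ Z : Cyc α, FreeMonoid.toList r = seg Z.c 0 (1 * Z.n) → Z.s ∈ HU r →
      Gen (HU r) Z → ∃ (n : ℕ) (s : FreeGroup (Fin n)),
        Nonempty ((IM r)ˣ ≃* PresentedGroup ({s} : Set (FreeGroup (Fin n))))) :
    ∃ (n : ℕ) (s : FreeGroup (Fin n)),
      Nonempty ((IM r)ˣ ≃* PresentedGroup ({s} : Set (FreeGroup (Fin n)))) := by
  by_cases hr1 : r = 1
  · refine ⟨0, 1, ⟨?_⟩⟩
    have hs1 : Subsingleton (IM r)ˣ :=
      ⟨fun a b => by rw [units_trivial hIM2 _ hr1 a, units_trivial hIM2 _ hr1 b]⟩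
    have hs2 : Subsingleton (PresentedGroup ({(1 : FreeGroup (Fin 0))} :
        Set (FreeGroup (Fin 0)))) := by
      constructor
      intro a b
      obtain ⟨a, rfl⟩ := QuotientGroup.mk_surjective a
      obtain ⟨b, rfl⟩ := QuotientGroup.mk_surjective b
      rw [Subsingleton.elim a b]
    exact
      { toFun := fun _ => 1
        invFun := fun _ => 1
        left_inv := fun _ => Subsingleton.elim _ _
        right_inv := fun _ => Subsingleton.elim _ _
        map_mul' := fun _ _ => Subsingleton.elim _ _ }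
  · have hne : FreeMonoid.toList r ≠ [] := fun h => hr1 (FreeMonoid.toList.injective h)
    obtain ⟨Z, l, hl, hr⟩ := hRTZ α (FreeMonoid.toList r) hne h1 h2
    obtain ⟨hs, -⟩ := hRIG α r Z l hl hr
    rcases Nat.lt_or_ge l 2 with hl2 | hl2
    · have : l = 1 := by omega
      subst this
      exact key Z hr hs (gen_of_GEN hGEN r Z 1 hr)
    · -- proper powers: project UT
      obtain ⟨Ψ, hsurj, hΨ2, -, hΨ4⟩ := hPSI α r
      let x : HU r := ⟨Z.s, hs⟩
      have hxk : ((x ^ l : HU r) : FreeGroup α) = Z.s ^ l := rfl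
      have hker := ker_eq hRIG hGEN hEXZ hIND r Z l hl2 hr Ψ hΨ2 hΨ4 (x ^ l) hxk
      obtain ⟨p, ⟨e⟩⟩ := hFGF α (HU r) (HU_fg _)
      exact ⟨p, (e x) ^ l, hPRES (HU r) p e (IM r)ˣ Ψ hsurj x l hker⟩

/-- Two generators. -/
theorem guTwo (hPSI : UT.StPSI) (hFGF : UT.StFGF) (hPRES : UT.StPRES) (hCYG : StCYG)
    (hFLA : StFLA) (r : FreeMonoid (α × Bool)) (h₁ h₂ : FreeGroup α)
    (hL : HU r = Subgroup.closure {h₁, h₂}) (Z : Cyc α)
    (hr : FreeMonoid.toList r = seg Z.c 0 (1 * Z.n)) (hs : Z.s ∈ HU r) (hg : Gen (HU r) Z) :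
    ∃ (n : ℕ) (s : FreeGroup (Fin n)),
      Nonempty ((IM r)ˣ ≃* PresentedGroup ({s} : Set (FreeGroup (Fin n)))) := by
  rcases hFLA α Z (HU r) h₁ h₂ hL hs hg with h | h
  · exact units_of_le hPSI hFGF hPRES r Z hr hs h
  · exact units_of_cyc hPSI hCYG r Z hr hs h

/-- The homology case. -/
theorem guHom (hPSI : UT.StPSI) (hFGF : UT.StFGF) (hPRES : UT.StPRES) (hFLD : StFLD)
    (r : FreeMonoid (α × Bool))
    (hL : ∀ h : HU r, (h : FreeGroup α) ∈ commutator (FreeGroup α) → h ∈ commutator (HU r))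
    (Z : Cyc α) (hr : FreeMonoid.toList r = seg Z.c 0 (1 * Z.n)) (hs : Z.s ∈ HU r)
    (hg : Gen (HU r) Z) :
    ∃ (n : ℕ) (s : FreeGroup (Fin n)),
      Nonempty ((IM r)ˣ ≃* PresentedGroup ({s} : Set (FreeGroup (Fin n)))) :=
  units_of_le hPSI hFGF hPRES r Z hr hs (hFLD α Z (HU r) hL hs hg)

end Pool.Agent.Helper96.GU
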