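import Pool.Agent.Helper96.UT.M_STK1
import Pool.Agent.Helper96.UT.M_STK2
import Pool.Agent.Helper96.UT.M_STK
import Pool.Agent.Helper96.UT.M_LIN
import Pool.Agent.Helper96.UT.M_TOP
import Pool.Agent.Helper96.UT.M_ARC
import Pool.Agent.Helper96.UT.M_GOOD
import Pool.Agent.Helper96.UT.M_FREE
import Pool.Agent.Helper96.UT.M_PER
import Pool.Agent.Helper96.UT.M_CNT
import Pool.Agent.Helper96.UT.M_REM
import Pool.Agent.Helper96.UT.M_COV
import Pool.Agent.Helper96.UT.M_FWD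
import Pool.Agent.Helper96.UT.M_STEP
import Pool.Agent.Helper96.UT.M_IND
import Pool.Agent.Helper96.UT.M_EXZ
import Pool.Agent.Helper96.UT.M_IM1
import Pool.Agent.Helper96.UT.M_IM2
import Pool.Agent.Helper96.UT.M_PSI
import Pool.Agent.Helper96.UT.M_RIG
import Pool.Agent.Helper96.UT.M_GEN
import Pool.Agent.Helper96.UT.M_FGF
import Pool.Agent.Helper96.UT.M_PRES
import Pool.Agent.Helper96.GU.Fin
import Pool.Agent.Helper82.GU.M_TOP
import Pool.Agent.Helper82.GU.M_SNG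
import Pool.Agent.Helper15.GU.M_LA
import Pool.Agent.Helper79.GU.M_GDQ
import Pool.Agent.Helper36.GU.M_FRE
import Pool.Agent.Helper36.GU.M_REQ
import Pool.Agent.Helper12.GU.M_RHO
import Pool.Agent.Helper48.GU.M_HOM
import Pool.Agent.Helper69.GU.M_FOR
import Pool.Agent.Helper36.GU.M_COL
import Pool.Agent.Helper28.GU.M_EXI
import Pool.Agent.Helper62.GU.M_RDI
import Pool.Agent.Helper4.GU.M_MIN
import Pool.Agent.Helper61.GU.M_CYK
import Pool.Agent.Helper15.GU.M_DUA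
import Pool.Agent.Helper15.GU.M_ABS
import Pool.Agent.Helper80.GU.M_ZCV
import Pool.Agent.Helper84.GU.M_TWU
import Pool.Agent.Helper42.GU.M_LFT
import Pool.Agent.Helper69.GU.M_DEN
import Pool.Agent.Helper61.GU.M_TWF
import Pool.Agent.Helper65.GU.M_TOW
import Pool.Agent.Helper65.GU.M_LV0
import Pool.Agent.Helper79.GU.M_LVD
import Pool.Agent.Helper38.GU.M_FLA
import Pool.Agent.Helper92.GU.M_FLD
import Pool.Agent.Helper98.GU.M_RTZ
import Pool.Agent.Helper91.GU.M_CYG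

/-!
Project GU (MP_2c90c1_al): the statements of the modules, proved.
-/

set_option autoImplicit false

namespace Pool.Agent.Helper96.GU

open Pool.Agent.Helper96.UT

theorem aSTK : UT.StSTK := UT.tSTK (UT.tSTK2 UT.tSTK1)

theorem aIND : UT.StIND := by
  have hGOOD := UT.tGOOD aSTK UT.tLIN UT.tTOP UT.tARC
  have hPER := UT.tPER UT.tFREE
  have hCNT := UT.tCNT hGOOD hPER
  have hREM := UT.tREM UT.tFREE hPER
  have hFWD := UT.tFWD UT.tCOV
  have hSTEP := UT.tSTEP UT.tFREE hPER hREM hFWD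
  exact UT.tIND hCNT hREM UT.tCOV hSTEP

theorem aPSI : UT.StPSI := UT.tPSI UT.tIM1 (UT.tIM2 UT.tIM1)

theorem aRIG : UT.StRIG := UT.tRIG UT.tIM1 aPSI

theorem aFRE : StFRE := Pool.Agent.Helper36.GU.tFRE
theorem aREQ : StREQ := Pool.Agent.Helper36.GU.tREQ aFRE
theorem aRHO : StRHO := Pool.Agent.Helper12.GU.tRHO aFRE
theorem aHOM : StHOM := Pool.Agent.Helper48.GU.tHOM aRHO
theorem aFOR : StFOR := Pool.Agent.Helper69.GU.tFOR
theorem aLA : StLA := Pool.Agent.Helper15.GU.tLA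
theorem aTOP : StTOP := Pool.Agent.Helper82.GU.tTOP
theorem aSNG : StSNG := Pool.Agent.Helper82.GU.tSNG
theorem aGDQ : StGDQ := Pool.Agent.Helper79.GU.tGDQ aSTK aLA aTOP aSNG
theorem aCOL : StCOL := Pool.Agent.Helper36.GU.tCOL aGDQ aREQ aRHO aFOR
theorem aEXI : StEXI := Pool.Agent.Helper28.GU.tEXI
theorem aRDI : StRDI := Pool.Agent.Helper62.GU.tRDI aFRE aREQ aHOM
theorem aMIN : StMIN := Pool.Agent.Helper4.GU.tMIN aEXI aRDI aSNG
theorem aCYK : StCYK := Pool.Agent.Helper61.GU.tCYK aFRE aRHO UT.tFGF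
theorem aDUA : StDUA := Pool.Agent.Helper15.GU.tDUA
theorem aZCV : StZCV := Pool.Agent.Helper80.GU.tZCV Pool.Agent.Helper15.GU.tABS
theorem aTWU : StTWU := Pool.Agent.Helper84.GU.tTWU aZCV
theorem aTWF : StTWF := Pool.Agent.Helper61.GU.tTWF aCOL
theorem aTOW : StTOW := Pool.Agent.Helper65.GU.tTOW aDUA aTWU Pool.Agent.Helper42.GU.tLFT
  Pool.Agent.Helper69.GU.tDEN aTWF
theorem aLV0 : StLV0 := Pool.Agent.Helper65.GU.tLV0 aLA aTOP
theorem aLVD : StLVD := Pool.Agent.Helper79.GU.tLVD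
theorem aFLA : StFLA := Pool.Agent.Helper38.GU.tFLA aSTK aMIN aCYK aLV0 aDUA aTOW
theorem aFLD : StFLD := Pool.Agent.Helper92.GU.tFLD aLVD aDUA aTOW
theorem aRTZ : StRTZ := Pool.Agent.Helper98.GU.tRTZ
theorem aCYG : StCYG := Pool.Agent.Helper91.GU.tCYG

end Pool.Agent.Helper96.GU
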