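import Pool.Agent.Helper96.GU.StF
import Pool.Agent.Helper96.GU.Fin

/-!
Project GF (MP_2c90c1_al): final assembly, from the statements of the modules.
-/

set_option autoImplicit false

namespace Pool.Agent.Helper96.GU

open Pool.Agent.Helper96.UT

variable {α : Type}

theorem s_mem_NT (r : FreeMonoid (α × Bool)) (Z : Cyc α) : Z.s ∈ NT r Z := by
  refine Subgroup.subset_closure ⟨[], RU_nil r, ?_⟩
  rw [mk_nil]
  simp

/-- The units are `Hp r Z` modulo one relator if there is a suitable step. -/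
theorem gfStep (hFGF : UT.StFGF) (hPRES : UT.StPRES) (hHPF : StHPF) (hHPS : StHPS)
    (hINH : StINH) (r : FreeMonoid (α × Bool)) (Z : Cyc α)
    (hr : FreeMonoid.toList r = seg Z.c 0 Z.n) (η : Stk Z) (m : ℤ)
    (h1 : ∀ j : ℤ, (Z.c j).1 = (Z.c m).1 → tht Z η.η m ≤ tht Z η.η j) (h2 : Mx r Z m) :
    ∃ (n : ℕ) (s : FreeGroup (Fin n)),
      Nonempty ((IM r)ˣ ≃* PresentedGroup ({s} : Set (FreeGroup (Fin n)))) := by
  obtain ⟨hs, hfg⟩ := hHPF α r Z hr
  obtain ⟨Ψ, hsurj, hk⟩ := hHPS α r Z hr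
  let x : Hp r Z := ⟨Z.s, hs⟩
  have hx : (x : FreeGroup α) = Z.s := rfl
  have hker : Ψ.ker = Subgroup.normalClosure ({x ^ 1} : Set (Hp r Z)) := by
    rw [pow_one]
    apply le_antisymm
    · intro h hh
      rw [MonoidHom.mem_ker] at hh
      have h5 := hINH α r Z η m hr h1 h2 h h.2 ((hk h).1 hh)
      obtain ⟨y, hy, hy2⟩ := Ns_le x hx h5
      have : y = h := Subtype.ext hy2
      rw [← this]
      exact hy
    · refine Subgroup.normalClosure_le_normal ?_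
      intro y hy
      rw [Set.mem_singleton_iff] at hy
      rw [hy]
      change x ∈ Ψ.ker
      rw [MonoidHom.mem_ker]
      exact (hk x).2 (by rw [hx]; exact s_mem_NT r Z)
  obtain ⟨p, ⟨e⟩⟩ := hFGF α (Hp r Z) hfg
  exact ⟨p, (e x) ^ 1, hPRES (Hp r Z) p e (IM r)ˣ Ψ hsurj x 1 hker⟩

/-- A letter which occurs once or twice. -/
theorem gfLetter [DecidableEq α] (hFGF : UT.StFGF) (hPRES : UT.StPRES) (hHPF : StHPF)
    (hHPS : StHPS) (hINH : StINH) (hCHO : StCHO) (hCTP : StCTP) (r : FreeMonoid (α × Bool))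
    (a : α) (ha1 : 1 ≤ (FreeMonoid.toList r).countP (fun x => x.1 = a))
    (ha2 : (FreeMonoid.toList r).countP (fun x => x.1 = a) ≤ 2) (Z : Cyc α)
    (hr : FreeMonoid.toList r = seg Z.c 0 (1 * Z.n)) :
    ∃ (n : ℕ) (s : FreeGroup (Fin n)),
      Nonempty ((IM r)ˣ ≃* PresentedGroup ({s} : Set (FreeGroup (Fin n)))) := by
  rw [one_mul] at hr
  rw [hr] at ha1 ha2
  obtain ⟨i₁, i₂, h1, h2, h3⟩ := hCTP α Z a ha1 ha2
  obtain ⟨η, m, h4, h5⟩ := hCHO α r Z a i₁ i₂ h1 h2 h3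
  exact gfStep hFGF hPRES hHPF hHPS hINH r Z hr η m h4 h5

end Pool.Agent.Helper96.GU
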