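import Pool.Agent.Helper96.GU.All
import Pool.Agent.Helper96.GU.FinF
import Pool.Agent.Helper40.GF.M_TSC
import Pool.Agent.Helper72.GF.M_VNT
import Pool.Agent.Helper16.GF.M_VUQ
import Pool.Agent.Helper65.GF.M_EXT
import Pool.Agent.Helper36.GF.M_UNI
import Pool.Agent.Helper19.GF.M_HPV
import Pool.Agent.Helper60.GF.M_HPF
import Pool.Agent.Helper36.GF.M_HPS
import Pool.Agent.Helper71.GF.M_GNH
import Pool.Agent.Helper36.GF.M_NBD
import Pool.Agent.Helper84.GF.M_TEQ
import Pool.Agent.Helper82.GF.M_GDF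
import Pool.Agent.Helper82.GF.M_REF
import Pool.Agent.Helper65.GF.M_KEY
import Pool.Agent.Helper51.GF.M_PSH
import Pool.Agent.Helper80.GF.M_INF
import Pool.Agent.Helper36.GF.M_INH
import Pool.Agent.Helper42.GF.M_CHO
import Pool.Agent.Helper28.GF.M_CTP

/-!
Project GF (MP_2c90c1_al): the statements of the modules, proved.
-/

set_option autoImplicit false

namespace Pool.Agent.Helper96.GU

open Pool.Agent.Helper96.UT

theorem fTSC : StTSC := Pool.Agent.Helper40.GF.tTSC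
theorem fVNT : StVNT := Pool.Agent.Helper72.GF.tVNT
theorem fVUQ : StVUQ := Pool.Agent.Helper16.GF.tVUQ fVNT
theorem fEXT : StEXT := Pool.Agent.Helper65.GF.tEXT fVNT
theorem fUNI : StUNI := Pool.Agent.Helper36.GF.tUNI
theorem fHPV : StHPV := Pool.Agent.Helper19.GF.tHPV
theorem fHPF : StHPF := Pool.Agent.Helper60.GF.tHPF
theorem fHPS : StHPS := Pool.Agent.Helper36.GF.tHPS aPSI fHPV fTSC fVNT
theorem fGNH : StGNH := Pool.Agent.Helper71.GF.tGNH
theorem fNBD : StNBD := Pool.Agent.Helper36.GF.tNBD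
theorem fTEQ : StTEQ := Pool.Agent.Helper84.GF.tTEQ
theorem fGDF : StGDF := Pool.Agent.Helper82.GF.tGDF aLA aTOP fNBD fTEQ
theorem fREF : StREF := Pool.Agent.Helper82.GF.tREF
theorem fKEY : StKEY := Pool.Agent.Helper65.GF.tKEY fVUQ fUNI fHPV fHPF
theorem fPSH : StPSH := Pool.Agent.Helper51.GF.tPSH fKEY fHPF
theorem fINF : StINF := Pool.Agent.Helper80.GF.tINF fGDF fREF fPSH aFOR
theorem fINH : StINH := Pool.Agent.Helper36.GF.tINH fINF fEXT fGNH
theorem fCHO : StCHO := Pool.Agent.Helper42.GF.tCHO aSTK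
theorem fCTP : StCTP := Pool.Agent.Helper28.GF.tCTP

end Pool.Agent.Helper96.GU
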