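import Pool.Agent.Helper96.UT.M_EXZ

/-!
Project GU (MP_2c90c1_al): the group of units of `Inv⟨A | r = 1⟩`, `r` cyclically reduced, is a
one-relator group if the subgroup `L` of the free group generated by the invertible prefixes of
`r` is generated by two elements or if `H_1(L) → H_1(F)` is injective.
Definitions and elementary lemmas (all proved).  We use the conventions of project UT
(`Pool.Agent.Helper96.UT.Defs`).
-/

set_option autoImplicit false

namespace Pool.Agent.Helper96.GU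

open Pool.Agent.Helper96.UT

variable {α : Type}

/-! ### Cocycles -/

section coc

variable {Ω : Type} [MulAction (FreeGroup α) Ω] {M : Type} [Group M]

/-- The product of the values of `κ` along the path `w` from `v` (inverse values for backward
steps). -/
def Pm (κ : Ω × α → M) : Ω → List (α × Bool) → M
  | _, [] => 1
  | v, x :: w => (if x.2 then κ (ed v x) else (κ (ed v x))⁻¹) * Pm κ (act v (lt x)) w

theorem Pm_append (κ : Ω × α → M) (v : Ω) (w w' : List (α × Bool)) :
    Pm κ v (w ++ w') = Pm κ v w * Pm κ (act v (FreeGroup.mk w)) w' := by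
  induction w generalizing v with
  | nil => simp [Pm, mk_nil]
  | cons x w ih =>
    simp only [List.cons_append, Pm, ih, mk_cons, act_mul, mul_assoc]

theorem Pm_step (κ : Ω × α → M) (v : Ω) {w w' : List (α × Bool)}
    (h : FreeGroup.Red.Step w w') : Pm κ v w = Pm κ v w' := by
  rcases h with ⟨⟩
  rename_i L₁ L₂ a b
  rw [Pm_append, Pm_append]
  congr 1
  have hb : ((a, !b) : α × Bool) = bar (a, b) := rfl
  simp only [Pm, hb, ed_bar, lt_bar]
  have h1 : ∀ x : Ω, act (act x (lt (a, b))) (lt (a, b))⁻¹ = x := fun x => act_inv_eq rfl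
  rw [h1]
  cases b <;> simp [bar]

/-- The value of the cocycle `κ` on a group element. -/
def Cc (κ : Ω × α → M) (v : Ω) (g : FreeGroup α) : M :=
  Quot.liftOn g (Pm κ v) (fun _ _ h => Pm_step κ v h)

theorem Cc_mk (κ : Ω × α → M) (v : Ω) (w : List (α × Bool)) :
    Cc κ v (FreeGroup.mk w) = Pm κ v w := rfl

theorem Cc_one (κ : Ω × α → M) (v : Ω) : Cc κ v 1 = 1 := rfl

theorem Cc_mul (κ : Ω × α → M) (v : Ω) (g h : FreeGroup α) :
    Cc κ v (g * h) = Cc κ v g * Cc κ (act v g) h := by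
  obtain ⟨w, rfl⟩ := rep_EXZ g
  obtain ⟨w', rfl⟩ := rep_EXZ h
  rw [← mk_append, Cc_mk, Cc_mk, Cc_mk, Pm_append]

theorem Cc_inv (κ : Ω × α → M) (v : Ω) (g : FreeGroup α) :
    Cc κ (act v g) g⁻¹ = (Cc κ v g)⁻¹ := by
  have h := Cc_mul κ v g g⁻¹
  rw [mul_inv_cancel, Cc_one] at h
  exact (inv_eq_of_mul_eq_one_right h.symm).symm

theorem Cc_lt (κ : Ω × α → M) (v : Ω) (x : α × Bool) :
    Cc κ v (lt x) = if x.2 then κ (ed v x) else (κ (ed v x))⁻¹ := by
  change Pm κ v [x] = _
  simp [Pm]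

/-- A cocycle with values in the free group which is the identity along a path. -/
theorem Pm_eq_mk (κ : Ω × α → FreeGroup α) (E : Set (Ω × α))
    (h : ∀ e ∈ E, κ e = lt (e.2, true)) {v : Ω} {w : List (α × Bool)} (hw : InE E v w) :
    Pm κ v w = FreeGroup.mk w := by
  induction w generalizing v with
  | nil => rfl
  | cons x w ih =>
    rw [Pm, ih hw.2, mk_cons, h _ hw.1]
    congr 1
    rcases x with ⟨a, b⟩
    cases b
    · simp only [ed, Bool.false_eq_true, if_false]
      have : ((a, false) : α × Bool) = bar (a, true) := rfl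
      rw [this, lt_bar]
    · simp [ed]

end coc

section add

variable {Ω : Type} [MulAction (FreeGroup α) Ω] {Q : Type} [AddCommGroup Q]

/-- The sum of `φ` along the path of a group element. -/
def Sa (φ : Ω × α → Q) (v : Ω) (g : FreeGroup α) : Q :=
  Quot.liftOn g (Sm φ v) (fun _ _ h => Sm_step_EXZ φ v h)

theorem Sa_mk (φ : Ω × α → Q) (v : Ω) (w : List (α × Bool)) :
    Sa φ v (FreeGroup.mk w) = Sm φ v w := rfl

theorem Sa_one (φ : Ω × α → Q) (v : Ω) : Sa φ v 1 = 0 := rfl

theorem Sa_mul (φ : Ω × α → Q) (v : Ω) (g h : FreeGroup α) :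
    Sa φ v (g * h) = Sa φ v g + Sa φ (act v g) h := by
  obtain ⟨w, rfl⟩ := rep_EXZ g
  obtain ⟨w', rfl⟩ := rep_EXZ h
  rw [← mk_append, Sa_mk, Sa_mk, Sa_mk, Sm_append]

theorem Sa_inv (φ : Ω × α → Q) (v : Ω) (g : FreeGroup α) :
    Sa φ (act v g) g⁻¹ = - Sa φ v g := by
  have h := Sa_mul φ v g g⁻¹
  rw [mul_inv_cancel, Sa_one] at h
  exact eq_neg_of_add_eq_zero_right h.symm

theorem Sa_lt (φ : Ω × α → Q) (v : Ω) (x : α × Bool) :
    Sa φ v (lt x) = if x.2 then φ (ed v x) else - φ (ed v x) := by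
  change Sm φ v [x] = _
  simp [Sm]

theorem Sm_map {Q' : Type} [AddCommGroup Q'] (F : Q →+ Q') (φ : Ω × α → Q) (v : Ω)
    (w : List (α × Bool)) : Sm (fun e => F (φ e)) v w = F (Sm φ v w) := by
  induction w generalizing v with
  | nil => simp [Sm]
  | cons x w ih =>
    simp only [Sm, ih, map_add]
    split <;> simp

theorem Sa_map {Q' : Type} [AddCommGroup Q'] (F : Q →+ Q') (φ : Ω × α → Q) (v : Ω)
    (g : FreeGroup α) : Sa (fun e => F (φ e)) v g = F (Sa φ v g) := by
  obtain ⟨w, rfl⟩ := rep_EXZ g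
  exact Sm_map F φ v w

/-- Naturality for equivariant maps. -/
theorem ed_comp {Ω' : Type} [MulAction (FreeGroup α) Ω'] (f : Ω' → Ω)
    (hf : ∀ (x : Ω') (g : FreeGroup α), f (act x g) = act (f x) g) (v : Ω') (x : α × Bool) :
    (f (ed v x).1, (ed v x).2) = ed (f v) x := by
  rcases x with ⟨a, b⟩
  cases b
  · simp [ed, hf]
  · simp [ed]

theorem Sm_comp {Ω' : Type} [MulAction (FreeGroup α) Ω'] (f : Ω' → Ω)
    (hf : ∀ (x : Ω') (g : FreeGroup α), f (act x g) = act (f x) g) (φ : Ω × α → Q) (v : Ω') (w : List (α × Bool)) :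
    Sm (fun e => φ (f e.1, e.2)) v w = Sm φ (f v) w := by
  induction w generalizing v with
  | nil => simp [Sm]
  | cons x w ih =>
    simp only [Sm, ih, hf, ed_comp f hf]

theorem Sa_comp {Ω' : Type} [MulAction (FreeGroup α) Ω'] (f : Ω' → Ω)
    (hf : ∀ (x : Ω') (g : FreeGroup α), f (act x g) = act (f x) g) (φ : Ω × α → Q) (v : Ω') (g : FreeGroup α) :
    Sa (fun e => φ (f e.1, e.2)) v g = Sa φ (f v) g := by
  obtain ⟨w, rfl⟩ := rep_EXZ g
  exact Sm_comp f hf φ v w

theorem InE_comp {Ω' : Type} [MulAction (FreeGroup α) Ω'] (f : Ω' → Ω)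
    (hf : ∀ (x : Ω') (g : FreeGroup α), f (act x g) = act (f x) g) (E : Set (Ω × α)) (v : Ω') (w : List (α × Bool)) :
    InE {e : Ω' × α | (f e.1, e.2) ∈ E} v w ↔ InE E (f v) w := by
  induction w generalizing v with
  | nil => simp [InE]
  | cons x w ih =>
    simp only [InE, ih, hf, Set.mem_setOf_eq, ed_comp f hf]

/-- The sum of a coboundary. -/
theorem Sm_cob (g : Ω → Q) (v : Ω) (w : List (α × Bool)) :
    Sm (fun e => g (act e.1 (lt (e.2, true))) - g e.1) v w = g (act v (FreeGroup.mk w)) - g v := by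
  induction w generalizing v with
  | nil => simp [Sm, mk_nil]
  | cons x w ih =>
    rw [Sm, ih, mk_cons, act_mul]
    rcases x with ⟨a, b⟩
    cases b
    · have h2 : act (act v (lt (a, false))) (lt (a, true)) = v := by
        have : ((a, true) : α × Bool) = bar (a, false) := rfl
        rw [this, lt_bar]
        exact act_inv_eq rfl
      simp only [ed, Bool.false_eq_true, if_false, h2]
      abel
    · simp only [ed, if_true]
      abel

theorem Sa_cob (g : Ω → Q) (v : Ω) (h : FreeGroup α) :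
    Sa (fun e => g (act e.1 (lt (e.2, true))) - g e.1) v h = g (act v h) - g v := by
  obtain ⟨w, rfl⟩ := rep_EXZ h
  exact Sm_cob g v w

theorem Sm_congr_on {φ ψ : Ω × α → Q} {E : Set (Ω × α)} (h : ∀ e ∈ E, φ e = ψ e) {v : Ω}
    {w : List (α × Bool)} (hw : InE E v w) : Sm φ v w = Sm ψ v w := by
  induction w generalizing v with
  | nil => rfl
  | cons x w ih => rw [Sm, Sm, ih hw.2, h _ hw.1]

theorem Sm_sub (φ ψ : Ω × α → Q) (v : Ω) (w : List (α × Bool)) :
    Sm (fun e => φ e - ψ e) v w = Sm φ v w - Sm ψ v w := by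
  induction w generalizing v with
  | nil => simp [Sm]
  | cons x w ih =>
    simp only [Sm, ih]
    split <;> abel

theorem Sa_sub (φ ψ : Ω × α → Q) (v : Ω) (g : FreeGroup α) :
    Sa (fun e => φ e - ψ e) v g = Sa φ v g - Sa ψ v g := by
  obtain ⟨w, rfl⟩ := rep_EXZ g
  exact Sm_sub φ ψ v w

theorem Sa_add (φ ψ : Ω × α → Q) (v : Ω) (g : FreeGroup α) :
    Sa (fun e => φ e + ψ e) v g = Sa φ v g + Sa ψ v g := by
  obtain ⟨w, rfl⟩ := rep_EXZ g
  exact Sm_add φ ψ v w

end add

/-- The sum as a linear functional of the cochain. -/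
def SaL {Ω : Type} [MulAction (FreeGroup α) Ω] (v : Ω) (g : FreeGroup α) :
    (Ω × α → ℚ) →ₗ[ℚ] ℚ where
  toFun φ := Sa φ v g
  map_add' φ ψ := Sa_add φ ψ v g
  map_smul' c φ := by
    have h : Sa (fun e => c * φ e) v g = c * Sa φ v g := by
      simpa using Sa_map ((LinearMap.lsmul ℚ ℚ c).toAddMonoidHom) φ v g
    exact h

/-! ### Reduction of paths -/

section red

variable {Ω : Type} [MulAction (FreeGroup α) Ω]

theorem InE_step {E : Set (Ω × α)} {v : Ω} {w w' : List (α × Bool)}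
    (h : FreeGroup.Red.Step w w') (hw : InE E v w) : InE E v w' := by
  rcases h with ⟨⟩
  rename_i L₁ L₂ a b
  have hb : ((a, !b) : α × Bool) = bar (a, b) := rfl
  rw [InE_append] at hw ⊢
  refine ⟨hw.1, ?_⟩
  have h2 := hw.2
  simp only [InE, hb, lt_bar] at h2
  have h1 : ∀ x : Ω, act (act x (lt (a, b))) (lt (a, b))⁻¹ = x := fun x => act_inv_eq rfl
  rw [h1] at h2
  exact h2.2.2

theorem InE_red {E : Set (Ω × α)} {v : Ω} {w w' : List (α × Bool)} (h : FreeGroup.Red w w')
    (hw : InE E v w) : InE E v w' := by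
  induction h with
  | refl => exact hw
  | tail _ h ih => exact InE_step h ih

/-- Two paths with the same group element have a common reduction. -/
theorem common_red {Ω' : Type} [MulAction (FreeGroup α) Ω'] {E : Set (Ω × α)}
    {E' : Set (Ω' × α)} {v : Ω} {v' : Ω'} {w w' : List (α × Bool)}
    (h : FreeGroup.mk w = FreeGroup.mk w') (hw : InE E v w) (hw' : InE E' v' w') :
    ∃ q : List (α × Bool), FreeGroup.mk q = FreeGroup.mk w ∧ InE E v q ∧ InE E' v' q := by
  obtain ⟨q, h1, h2⟩ := FreeGroup.Red.exact.1 h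
  exact ⟨q, (FreeGroup.Red.exact.2 ⟨q, h1, Relation.ReflTransGen.refl⟩).symm,
    InE_red h1 hw, InE_red h2 hw'⟩

end red

/-! ### Potentials -/

section pot

variable {Ω : Type} [MulAction (FreeGroup α) Ω]

/-- Joined by a path in `E`. -/
def Jn (E : Set (Ω × α)) (v v' : Ω) : Prop :=
  ∃ w : List (α × Bool), InE E v w ∧ act v (FreeGroup.mk w) = v'

/-- The classes of vertices joined by a path in `E`. -/
def jnSetoid (E : Set (Ω × α)) : Setoid Ω where
  r := Jn E
  iseqv :=
    { refl := fun v => ⟨[], trivial, by simp [mk_nil]⟩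
      symm := by
        rintro v v' ⟨w, h1, h2⟩
        refine ⟨FreeGroup.invRev w, ?_, ?_⟩
        · rw [← h2]
          exact InE_invRev h1
        · rw [mk_invRev]
          exact act_inv_eq h2
      trans := by
        rintro v v' v'' ⟨w, h1, h2⟩ ⟨w', h3, h4⟩
        refine ⟨w ++ w', ?_, ?_⟩
        · rw [InE_append, h2]
          exact ⟨h1, h3⟩
        · rw [mk_append, act_mul, h2, h4] }

/-- A cochain with vanishing sums along closed paths in `E` is a coboundary on `E`. -/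
theorem potential (E : Set (Ω × α)) (φ : Ω × α → ℚ)
    (h : ∀ (v : Ω) (w : List (α × Bool)), InE E v w → act v (FreeGroup.mk w) = v →
      Sm φ v w = 0) :
    ∃ f : Ω → ℚ, ∀ (x : Ω) (a : α), (x, a) ∈ E → φ (x, a) = f (act x (lt (a, true))) - f x := by
  classical
  let S := jnSetoid E
  let r : Ω → Ω := fun v => (Quotient.mk S v).out
  have hr : ∀ v, Jn E (r v) v := fun v => Quotient.mk_out (s := S) v
  choose p hp1 hp2 using hr
  refine ⟨fun v => Sm φ (r v) (p v), fun x a hx => ?_⟩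
  have e1 : ed x (a, true) = (x, a) := by simp [ed]
  have hr2 : r (act x (lt (a, true))) = r x := by
    change (Quotient.mk S (act x (lt (a, true)))).out = (Quotient.mk S x).out
    congr 1
    refine Quotient.sound ?_
    refine S.symm ?_
    exact ⟨[(a, true)], ⟨by rw [e1]; exact hx, trivial⟩, rfl⟩
  set y := act x (lt (a, true)) with hy
  have hc := h (r x) (p x ++ [(a, true)] ++ FreeGroup.invRev (p y)) (by
    rw [InE_append, InE_append, hp2 x]
    refine ⟨⟨hp1 x, ⟨by rw [e1]; exact hx, trivial⟩⟩, ?_⟩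
    rw [mk_append, act_mul, hp2 x]
    have : act x (FreeGroup.mk [(a, true)]) = y := rfl
    rw [this]
    have h3 := InE_invRev (hp1 y)
    rw [hp2 y] at h3
    exact h3) (by
    rw [mk_append, mk_append, act_mul, act_mul, hp2 x]
    have : act x (FreeGroup.mk [(a, true)]) = y := rfl
    rw [this, mk_invRev]
    have h3 := act_inv_eq (hp2 y)
    rw [h3, hr2])
  rw [Sm_append, Sm_append, mk_append, act_mul, hp2 x] at hc
  have h4 : act x (FreeGroup.mk [(a, true)]) = y := rfl
  rw [h4] at hc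
  have h5 := Sm_invRev φ (r y) (p y)
  rw [hp2 y] at h5
  rw [h5, hr2] at hc
  simp only [Sm, if_true, e1, add_zero] at hc
  change φ (x, a) = Sm φ (r y) (p y) - Sm φ (r x) (p x)
  rw [hr2]
  linarith

end pot

/-! ### The infinite cyclic cover of a cochain -/

/-- The skew product of `Ω` and `ℤ`. -/
def Zc {Ω : Type} [MulAction (FreeGroup α) Ω] (_θ : Ω × α → ℤ) : Type := Ω × ℤ

section Zc

variable {Ω : Type} [MulAction (FreeGroup α) Ω] (θ : Ω × α → ℤ)

theorem inv_act (v : Ω) (g : FreeGroup α) : act v g = g⁻¹ • v := rfl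

instance instZc : MulAction (FreeGroup α) (Zc θ) where
  smul g x := (g • x.1, x.2 + Sa θ x.1 g⁻¹)
  one_smul x := by
    change ((1 : FreeGroup α) • x.1, x.2 + Sa θ x.1 (1 : FreeGroup α)⁻¹) = x
    rw [one_smul, inv_one, Sa_one, add_zero]
    rfl
  mul_smul g h x := by
    change ((g * h) • x.1, x.2 + Sa θ x.1 (g * h)⁻¹) =
      (g • (h • x.1), (x.2 + Sa θ x.1 h⁻¹) + Sa θ (h • x.1) g⁻¹)
    rw [mul_smul, mul_inv_rev, Sa_mul, inv_act, inv_inv, add_assoc]

/-- The point with the height `m` over `p`. -/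
def zp (p : Ω) (m : ℤ) : Zc θ := (p, m)

theorem act_zp (p : Ω) (m : ℤ) (g : FreeGroup α) :
    act (zp θ p m) g = zp θ (act p g) (m + Sa θ p g) := by
  change ((g⁻¹ • p, m + Sa θ p (g⁻¹)⁻¹) : Ω × ℤ) = (act p g, m + Sa θ p g)
  rw [inv_inv]
  rfl

theorem Zc_fst (x : Zc θ) (g : FreeGroup α) : (act x g).1 = act x.1 g := rfl

end Zc

/-! ### Products of sets with action -/

section Prd

variable {Ω Θ : Type} [MulAction (FreeGroup α) Ω] [MulAction (FreeGroup α) Θ]

theorem act_prod (x : Ω × Θ) (g : FreeGroup α) : act x g = (act x.1 g, act x.2 g) := rfl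

end Prd

/-! ### Cells and complexes -/

section cells

variable {Ω : Type} [MulAction (FreeGroup α) Ω]

/-- The edges of the cell `u`. -/
def CE (Z : Cyc α) (u : Ω) : Set (Ω × α) :=
  {e | ∃ i : ℤ, e = ed (act u (pre Z.c i)) (Z.c i)}

/-- `C` is a finite set of cells (closed paths `s`) of the graph with the edges `E`. -/
structure Cpx (Z : Cyc α) (E : Set (Ω × α)) (C : Finset Ω) : Prop where
  fix : ∀ u ∈ C, act u Z.s = u
  sub : ∀ u ∈ C, CE Z u ⊆ E

/-- Rational cochains which vanish on the cells and on the elements of `S` (at the base point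
`v`) vanish on all closed paths in `E`.  For `S = ∅` this is `H¹(E, C; ℚ) = 0`. -/
def Hh (Z : Cyc α) (E : Set (Ω × α)) (C : Finset Ω) (v : Ω) (S : Set (FreeGroup α)) : Prop :=
  ∀ φ : Ω × α → ℚ, (∀ u ∈ C, Sa φ u Z.s = 0) → (∀ h ∈ S, Sa φ v h = 0) →
    ∀ (x : Ω) (q : List (α × Bool)), InE E x q → act x (FreeGroup.mk q) = x → Sm φ x q = 0

/-- The products of conjugates `p s p⁻¹` of the boundaries of cells, by paths in `E` from `v`. -/
def Nc (Z : Cyc α) (E : Set (Ω × α)) (C : Finset Ω) (v : Ω) : Subgroup (FreeGroup α) :=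
  Subgroup.closure {x | ∃ p : List (α × Bool), InE E v p ∧ act v (FreeGroup.mk p) ∈ C ∧
    x = FreeGroup.mk p * Z.s * (FreeGroup.mk p)⁻¹}

/-- The vertex `act u (pre k)` of the cell `u` lies on no other cell and the cell passes it only
once. -/
def Sg (Z : Cyc α) (C : Finset Ω) (u : Ω) (k : ℤ) : Prop :=
  ∀ u' ∈ C, ∀ k' : ℤ, act u' (pre Z.c k') = act u (pre Z.c k) → (Z.n : ℤ) ∣ k' - k ∧ u' = u

open scoped Classical in
/-- The vertices on cells. -/
noncomputable def VC (Z : Cyc α) (C : Finset Ω) : Finset Ω :=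
  (C ×ˢ Finset.range Z.n).image fun p => act p.1 (pre Z.c (p.2 : ℤ))

open scoped Classical in
/-- The edges on cells. -/
noncomputable def EC (Z : Cyc α) (C : Finset Ω) : Finset (Ω × α) :=
  (C ×ˢ Finset.range Z.n).image fun p => ed (act p.1 (pre Z.c (p.2 : ℤ))) (Z.c (p.2 : ℤ))

/-- The vertex strand `(u, k)` is the highest one at its vertex. -/
def TopV (Z : Cyc α) (C : Finset Ω) (η : ℤ → ℤ) (u : Ω) (k : ℤ) : Prop :=
  ∀ u' ∈ C, ∀ k' : ℤ, act u' (pre Z.c k') = act u (pre Z.c k) → η k' ≤ η k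

/-- The height of a step at the tail of its (oriented) edge. -/
def tht (Z : Cyc α) (η : ℤ → ℤ) (k : ℤ) : ℤ := if (Z.c k).2 then η k else η (k + 1)

/-- The step `(u, k)` is the highest one on its edge. -/
def TopE (Z : Cyc α) (C : Finset Ω) (η : ℤ → ℤ) (u : Ω) (k : ℤ) : Prop :=
  ∀ u' ∈ C, ∀ k' : ℤ, ed (act u' (pre Z.c k')) (Z.c k') = ed (act u (pre Z.c k)) (Z.c k) →
    tht Z η k' ≤ tht Z η k

open scoped Classical in
/-- The beginnings of the top arcs. -/
noncomputable def Bd (Z : Cyc α) (C : Finset Ω) (η : ℤ → ℤ) : Finset (Ω × ℕ) :=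
  (C ×ˢ Finset.range Z.n).filter fun p => TopE Z C η p.1 p.2 ∧ ¬ TopV Z C η p.1 p.2

theorem fix_zpow {Z : Cyc α} {u : Ω} (hu : act u Z.s = u) (q : ℤ) : act u (Z.s ^ q) = u := by
  induction q with
  | zero => simp
  | succ q ih => rw [zpow_add, act_mul, ih, zpow_one, hu]
  | pred q ih =>
    rw [sub_eq_add_neg, zpow_add, act_mul, ih, zpow_neg_one]
    exact act_inv_eq hu

/-- Periodicity of the boundary path of a cell. -/
theorem act_pre_per {Z : Cyc α} {u : Ω} (hu : act u Z.s = u) (k q : ℤ) :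
    act u (pre Z.c (k + q * Z.n)) = act u (pre Z.c k) := by
  rw [act_pre_add, fix_zpow hu]

theorem mk_seg_s (Z : Cyc α) : FreeGroup.mk (seg Z.c 0 Z.n) = Z.s := by
  rw [mk_seg, pre_zero, zero_add]
  simp [Cyc.s]

/-- The boundary path of a cell runs over the edges of the cell. -/
theorem InE_cell (Z : Cyc α) (u : Ω) (i : ℤ) (k : ℕ) :
    InE (CE Z u) (act u (pre Z.c i)) (seg Z.c i k) := by
  rw [InE_seg]
  intro t _
  exact ⟨i + t, rfl⟩

/-- Paths in `Γ` are mapped to paths on the base cell. -/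
theorem InG_InE {L : Subgroup (FreeGroup α)} {Z : Cyc α} {v : Ω} (hv : ∀ h ∈ L, act v h = v)
    {g : FreeGroup α} {q : List (α × Bool)} (hq : InG L Z.c g q) :
    InE (CE Z v) (act v g) q := by
  induction q generalizing g with
  | nil => trivial
  | cons x q ih =>
    obtain ⟨⟨h, hh, j, hj⟩, h2⟩ := hq
    refine ⟨?_, ?_⟩
    · rcases hj with ⟨rfl, rfl⟩ | ⟨rfl, rfl⟩
      · rw [act_mul, hv h hh]
        exact ⟨j, rfl⟩
      · rw [act_mul, hv h hh]
        refine ⟨j, ?_⟩
        rw [pre_succ, act_mul, ed_bar]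
    · rw [← act_mul]
      exact ih h2

/-- `Γ` contains a path for every element of `L`. -/
def Gen (L : Subgroup (FreeGroup α)) (Z : Cyc α) : Prop :=
  ∀ h ∈ L, ∃ q : List (α × Bool), InG L Z.c 1 q ∧ FreeGroup.mk q = h

/-- The normal closure of `s` in `L`, as a subgroup of the free group. -/
def Ns (L : Subgroup (FreeGroup α)) (Z : Cyc α) : Subgroup (FreeGroup α) :=
  Subgroup.closure {x | ∃ g ∈ L, x = g * Z.s * g⁻¹}

end cells

/-! ### Finite sets of paths -/

section paths

variable {Ω : Type} [MulAction (FreeGroup α) Ω]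

open scoped Classical in
/-- The vertices of the paths `w ∈ W` from `v`. -/
noncomputable def VW (W : Finset (List (α × Bool))) (v : Ω) : Finset Ω :=
  W.biUnion fun w => (Finset.range (w.length + 1)).image fun i => vt v w i

/-- The edges of the paths `w ∈ W` from `v`. -/
def EW (W : Finset (List (α × Bool))) (v : Ω) : Set (Ω × α) :=
  {e | ∃ w ∈ W, ∃ (i : ℕ) (h : i < w.length), e = ed (vt v w i) w[i]}

theorem InE_EW {W : Finset (List (α × Bool))} {v : Ω} {w : List (α × Bool)} (hw : w ∈ W) :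
    InE (EW W v) v w := by
  rw [InE_iff]
  intro i h
  exact ⟨w, hw, i, h, rfl⟩

/-- The number of vertices is bounded. -/
theorem card_VW (W : Finset (List (α × Bool))) (v : Ω) :
    (VW W v).card ≤ ∑ w ∈ W, (w.length + 1) := by
  classical
  refine (Finset.card_biUnion_le).trans (Finset.sum_le_sum fun w _ => ?_)
  exact (Finset.card_image_le).trans (by simp)

end paths

/-! ### The property R2 -/

section R2

variable (Z : Cyc α) (Ω Θ : Type) [MulAction (FreeGroup α) Ω] [MulAction (FreeGroup α) Θ]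

/-- The linear map of the chains of the pullback and of the cells: an edge `((p, γ), a)` is
mapped to the edge `(p, a)` and to its boundary in the pullback, a cell to its boundary path. -/
noncomputable def TT :
    ((((Ω × Θ) × α) ⊕ Ω) →₀ ℚ) →ₗ[ℚ] (((Ω × α) ⊕ (Ω × Θ)) →₀ ℚ) :=
  Finsupp.linearCombination ℚ fun i => match i with
    | Sum.inl e => Finsupp.single (Sum.inl (e.1.1, e.2)) 1 +
        (Finsupp.single (Sum.inr (act e.1 (lt (e.2, true)))) 1 - Finsupp.single (Sum.inr e.1) 1)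
    | Sum.inr p => Sa (fun e : Ω × α => Finsupp.single (Sum.inl e) (1 : ℚ)) p Z.s

variable {Ω Θ}

/-- The admissible edges and cells. -/
def Gd (o : Θ) (B : Set (Ω × Θ)) (D : Set Ω) : Set (((Ω × Θ) × α) ⊕ Ω) :=
  {i | (∃ e : (Ω × Θ) × α, i = Sum.inl e ∧ e.1 ∈ B ∧ (e.1.2, e.2) ∈ CE Z o) ∨
    ∃ p ∈ D, i = Sum.inr p}

/-- There is no relation. -/
def R2 (o : Θ) (B : Set (Ω × Θ)) (D : Set Ω) : Prop :=
  ∀ x : (((Ω × Θ) × α) ⊕ Ω) →₀ ℚ, (∀ i ∈ x.support, i ∈ Gd Z o B D) → TT Z Ω Θ x = 0 → x = 0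

/-- The cochain form of `R2`. -/
def R2s (o : Θ) (B : Set (Ω × Θ)) (D : Set Ω) : Prop :=
  ∀ (ψ : (Ω × Θ) × α → ℚ) (κ : Ω → ℚ), ∃ (φ : Ω × α → ℚ) (g : Ω × Θ → ℚ),
    (∀ e : (Ω × Θ) × α, e.1 ∈ B → (e.1.2, e.2) ∈ CE Z o →
      ψ e = φ (e.1.1, e.2) + (g (act e.1 (lt (e.2, true))) - g e.1)) ∧
    ∀ p ∈ D, Sa φ p Z.s = κ p

/-- The data of the tower: `B` is the set of vertices of the pullback, `D` the set of the cells
which are not base cells, the words `w ∈ W` lead from `v` to cells. -/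
structure Tw (o : Θ) (W : Finset (List (α × Bool))) (v : Ω) (B : Set (Ω × Θ)) (D : Set Ω) :
    Prop where
  inv : ∀ x ∈ B, ∀ g : FreeGroup α, act x g ∈ B
  bas : (v, o) ∈ B
  fix : ∀ w ∈ W, act (act v (FreeGroup.mk w)) Z.s = act v (FreeGroup.mk w)
  cel : ∀ w ∈ W, (act v (FreeGroup.mk w), o) ∈ B ∨ act v (FreeGroup.mk w) ∈ D
  r2 : R2 Z o B D

end R2

end Pool.Agent.Helper96.GU
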