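import Pool.Agent.Helper96.GU.St
import Pool.Agent.Helper96.UT.M_IM1
import Pool.Agent.Helper96.UT.M_IM2
import Pool.Agent.Helper96.UT.M_GOOD

/-!
Project GF (MP_2c90c1_al): the group of units of `Inv⟨A | r = 1⟩`, `r` cyclically reduced, is a
one-relator group if some letter occurs exactly once or twice in `r`.  Definitions and elementary
lemmas (all proved).
-/

set_option autoImplicit false

namespace Pool.Agent.Helper96.GU

open Pool.Agent.Helper96.UT

variable {α : Type}

/-- The value (in the inverse monoid) of the prefix of length `j mod n`. -/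
def sg (r : FreeMonoid (α × Bool)) (Z : Cyc α) (j : ℤ) : IM r :=
  io r (seg Z.c 0 (j % (Z.n : ℤ)).toNat)

/-- The index of the tail of the step `j` (its edge is oriented according to the letter). -/
def tl (Z : Cyc α) (j : ℤ) : ℤ := if (Z.c j).2 then j else j + 1

/-- The position `j` is above the position `k`. -/
def Ge (r : FreeMonoid (α × Bool)) (Z : Cyc α) (j k : ℤ) : Prop :=
  ∃ x : IM r, RU x ∧ sg r Z j = x * sg r Z k

/-- The step `m` is maximal among the steps with the same letter. -/
def Mx (r : FreeMonoid (α × Bool)) (Z : Cyc α) (m : ℤ) : Prop :=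
  ∀ j : ℤ, (Z.c j).1 = (Z.c m).1 → Ge r Z (tl Z j) (tl Z m) → Ge r Z (tl Z m) (tl Z j)

/-- The subgroup generated by the differences of positions which are equivalent modulo units. -/
def Hp (r : FreeMonoid (α × Bool)) (Z : Cyc α) : Subgroup (FreeGroup α) :=
  Subgroup.closure {g | ∃ (j k : ℤ) (u : IM r), IsUnit u ∧ sg r Z j = u * sg r Z k ∧
    g = pre Z.c j * (pre Z.c k)⁻¹}

/-- The products of conjugates of `s` by words which are right units. -/
def NT (r : FreeMonoid (α × Bool)) (Z : Cyc α) : Subgroup (FreeGroup α) :=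
  Subgroup.closure {g | ∃ p : List (α × Bool), RU (io r p) ∧
    g = FreeGroup.mk p * Z.s * (FreeGroup.mk p)⁻¹}

section F

variable {Ω : Type} [MulAction (FreeGroup α) Ω]

/-- The edge of the step `(u, m)` is traversed by no other step. -/
def Fr (Z : Cyc α) (C : Finset Ω) (u : Ω) (m : ℤ) : Prop :=
  ∀ u' ∈ C, ∀ k' : ℤ, ed (act u' (pre Z.c k')) (Z.c k') = ed (act u (pre Z.c m)) (Z.c m) →
    (Z.n : ℤ) ∣ k' - m ∧ u' = u

/-- The graph `E` (near the vertex `v`) lies over the graph of right units of the monoid. -/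
structure Ov (r : FreeMonoid (α × Bool)) (Z : Cyc α) (v : Ω) (E : Set (Ω × α)) : Prop where
  stab : ∀ g : FreeGroup α, act v g = v → g ∈ NT r Z
  ru : ∀ q : List (α × Bool), InE E v q → RU (io r q)

end F

/-! ### Elementary lemmas -/

theorem RU_one (r : FreeMonoid (α × Bool)) : RU (1 : IM r) := ⟨1, mul_one 1⟩

theorem RU_nil (r : FreeMonoid (α × Bool)) : RU (io r []) := RU_one r

theorem RU_unit {r : FreeMonoid (α × Bool)} {y : IM r} (h : IsUnit y) : RU y := by
  obtain ⟨u, rfl⟩ := h
  exact ⟨((u⁻¹ : (IM r)ˣ) : IM r), u.mul_inv⟩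

/-- Prefixes of right units are right units. -/
theorem RU_left {r : FreeMonoid (α × Bool)} {p q : List (α × Bool)} (h : RU (io r (p ++ q))) :
    RU (io r p) := by
  obtain ⟨z, hz⟩ := h
  refine ⟨io r q * z, ?_⟩
  rw [← mul_assoc, ← io_append]
  exact hz

/-- Cancellation on the right. -/
theorem RU_cancel {r : FreeMonoid (α × Bool)} {x y s : IM r} (hs : RU s) (h : x * s = y * s) :
    x = y := by
  obtain ⟨z, hz⟩ := hs
  calc x = x * s * z := by rw [mul_assoc, hz, mul_one]
    _ = y := by rw [h, mul_assoc, hz, mul_one]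

/-- Right units with the same image in the free group are equal. -/
theorem RU_uniq {r : FreeMonoid (α × Bool)} {w w' : List (α × Bool)} (h : RU (io r w))
    (h' : RU (io r w')) (e : FreeGroup.mk w = FreeGroup.mk w') : io r w = io r w' :=
  (tIM1 α r).2.2 w w' h h' e

/-- The inverse of a unit word. -/
theorem unit_invRev {r : FreeMonoid (α × Bool)} {w : List (α × Bool)}
    (h : IsUnit (io r w)) : IsUnit (io r (FreeGroup.invRev w)) := by
  have e := one_IM1 r w (RU_unit h)
  obtain ⟨u, hu⟩ := h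
  rw [← hu] at e
  have e2 : io r (FreeGroup.invRev w) = ((u⁻¹ : (IM r)ˣ) : IM r) := by
    rw [← u.inv_mul_cancel_left (io r (FreeGroup.invRev w)), e, mul_one]
  rw [e2]
  exact (u⁻¹).isUnit

/-- A step back along a right unit. -/
theorem RU_back {r : FreeMonoid (α × Bool)} {p : List (α × Bool)} {x : α × Bool}
    (h : RU (io r (p ++ [x]))) : io r (p ++ [x] ++ [bar x]) = io r p := by
  have h1 := two_IM1 r p [x] h
  have h2 : FreeGroup.invRev [x] = [bar x] := by simp [FreeGroup.invRev, bar]
  rw [h2, ← io_append, ← List.append_assoc] at h1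
  exact h1

section per

variable (r : FreeMonoid (α × Bool)) (Z : Cyc α)

theorem sg_add_mul (j q : ℤ) : sg r Z (j + q * Z.n) = sg r Z j := by
  unfold sg
  rw [Int.add_mul_emod_self_right]

theorem sg_zero : sg r Z 0 = 1 := by
  simp [sg]
  rfl

theorem sg_of_lt {j : ℕ} (hj : j < Z.n) : sg r Z j = io r (seg Z.c 0 j) := by
  unfold sg
  rw [Int.emod_eq_of_lt (by positivity) (by exact_mod_cast hj), Int.toNat_natCast]

theorem sg_of_le (hr : FreeMonoid.toList r = seg Z.c 0 Z.n) {j : ℕ} (hj : j ≤ Z.n) :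
    sg r Z j = io r (seg Z.c 0 j) := by
  rcases Nat.lt_or_eq_of_le hj with h | rfl
  · exact sg_of_lt r Z h
  · have h := sg_add_mul r Z 0 1
    rw [zero_add, one_mul, sg_zero] at h
    rw [h, ← hr, io_r]

theorem take_seg (c : ℤ → α × Bool) (i : ℤ) (k j : ℕ) (hj : j ≤ k) :
    (seg c i k).take j = seg c i j := by
  obtain ⟨d, rfl⟩ := Nat.exists_eq_add_of_le hj
  rw [seg_add, List.take_append_of_le_length (by simp)]
  rw [List.take_of_length_le (by simp)]

theorem RU_seg (hr : FreeMonoid.toList r = seg Z.c 0 Z.n) {j : ℕ} (hj : j ≤ Z.n) :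
    RU (io r (seg Z.c 0 j)) := by
  rw [← take_seg Z.c 0 Z.n j hj, ← hr]
  exact RU_take_IM2 r j

theorem RU_sg (hr : FreeMonoid.toList r = seg Z.c 0 Z.n) (j : ℤ) : RU (sg r Z j) := by
  unfold sg
  refine RU_seg r Z hr ?_
  have hn : (0 : ℤ) < Z.n := by exact_mod_cast Z.pos
  have h1 := Int.emod_lt_of_pos j hn
  have h2 := Int.emod_nonneg j hn.ne'
  omega

theorem tl_add_mul (j q : ℤ) : tl Z (j + q * Z.n) = tl Z j + q * Z.n := by
  unfold tl
  rw [Z.per_mul]
  split <;> ring

/-- The edge of a step, with its tail. -/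
theorem ed_tl {Ω : Type} [MulAction (FreeGroup α) Ω] (u : Ω) (j : ℤ) :
    ed (act u (pre Z.c j)) (Z.c j) = (act u (pre Z.c (tl Z j)), (Z.c j).1) := by
  unfold tl ed
  split
  · rfl
  · rw [act_pre_succ]

/-- A path in the cell `u` from the vertex `(u, i)` to the vertex `(u, j)`. -/
theorem cell_path {Ω : Type} [MulAction (FreeGroup α) Ω] (u : Ω) (i j : ℤ) :
    ∃ P : List (α × Bool), InE (CE Z u) (act u (pre Z.c i)) P ∧
      FreeGroup.mk P = (pre Z.c i)⁻¹ * pre Z.c j := by
  rcases le_total i j with h | h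
  · refine ⟨seg Z.c i (j - i).toNat, InE_cell Z u i _, ?_⟩
    rw [mk_seg]
    congr 2
    omega
  · refine ⟨FreeGroup.invRev (seg Z.c j (i - j).toNat), ?_, ?_⟩
    · have h1 := InE_invRev (InE_cell Z u j (i - j).toNat)
      rw [mk_seg, ← act_mul, mul_inv_cancel_left] at h1
      have e : j + ((i - j).toNat : ℤ) = i := by omega
      rw [e] at h1
      exact h1
    · rw [mk_invRev, mk_seg]
      have e : j + ((i - j).toNat : ℤ) = i := by omega
      rw [e]
      group

end per

/-- The negative stacking. -/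
def negStk {Z : Cyc α} (η : Stk Z) : Stk Z := negStk_GOOD η

theorem negStk_apply {Z : Cyc α} (η : Stk Z) (i : ℤ) : (negStk η).η i = - η.η i := rfl

end Pool.Agent.Helper96.GU
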