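import Pool.Agent.Helper96.GU.AllF

/-!
Project GF (MP_2c90c1_al): letters all of whose places but at most one are maximal.
-/

set_option autoImplicit false

namespace Pool.Agent.Helper96.GU

open Pool.Agent.Helper96.UT hiding StTOP TopV TopE tht Bd VC EC

variable {α : Type}

/-- The beginning of `L` before the tail of the edge read at the place `i` (the letter `i` is read
forwards from the tail if it is positive, and backwards to the tail if it is negative). -/
def tpre (L : List (α × Bool)) (i : ℕ) : List (α × Bool) :=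
  if (L[i]?.map Prod.snd) = some false then L.take (i + 1) else L.take i

/-- The place `i` of `r` is maximal: if the edge of the place `i` of the copy of `r` which begins
at the right unit `x` is the edge of the place `k` of `r` (same letter), then `x` is a unit. -/
def MaxPlace (r : FreeMonoid (α × Bool)) (i : ℕ) : Prop :=
  ∀ k < (FreeMonoid.toList r).length,
    ((FreeMonoid.toList r)[k]?.map Prod.fst) = ((FreeMonoid.toList r)[i]?.map Prod.fst) →
    ∀ x : IM r, RU x →
      io r (tpre (FreeMonoid.toList r) k) = x * io r (tpre (FreeMonoid.toList r) i) → IsUnit x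

theorem seg_getElem? (c : ℤ → α × Bool) (n i : ℕ) (hi : i < n) :
    (seg c 0 n)[i]? = some (c i) := by
  have h : i < (seg c 0 n).length := by simpa using hi
  rw [List.getElem?_eq_getElem h]
  simp [seg]

theorem io_tpre (r : FreeMonoid (α × Bool)) (Z : Cyc α)
    (hr : FreeMonoid.toList r = seg Z.c 0 Z.n) (i : ℕ) (hi : i < Z.n) :
    io r (tpre (FreeMonoid.toList r) i) = sg r Z (tl Z i) := by
  unfold tpre tl
  rw [hr, seg_getElem? Z.c Z.n i hi]
  rcases hc : Z.c i with ⟨a, b⟩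
  cases b
  · simp only [Option.map_some, if_true, Bool.false_eq_true, if_false]
    rw [take_seg Z.c 0 Z.n (i + 1) (by omega)]
    have h := sg_of_le r Z hr (j := i + 1) (by omega)
    rw [← h]
    push_cast
    rfl
  · simp only [Option.map_some, if_true]
    rw [if_neg (by simp), take_seg Z.c 0 Z.n i (by omega)]
    exact (sg_of_le r Z hr (by omega)).symm

theorem mod_rep (Z : Cyc α) (j : ℤ) : ∃ k : ℕ, k < Z.n ∧ ∃ q : ℤ, j = k + q * Z.n := by
  have hn : (0 : ℤ) < Z.n := by exact_mod_cast Z.pos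
  refine ⟨(j % (Z.n : ℤ)).toNat, ?_, j / (Z.n : ℤ), ?_⟩
  · have h1 := Int.emod_lt_of_pos j hn
    have h2 := Int.emod_nonneg j hn.ne'
    omega
  · have h2 := Int.emod_nonneg j hn.ne'
    rw [Int.toNat_of_nonneg h2]
    have := Int.emod_add_mul_ediv j (Z.n : ℤ)
    linarith

theorem mx_of_maxPlace (r : FreeMonoid (α × Bool)) (Z : Cyc α)
    (hr : FreeMonoid.toList r = seg Z.c 0 Z.n) (m : ℕ) (hm : m < Z.n) (h : MaxPlace r m) :
    Mx r Z m := by
  intro j hj hge
  obtain ⟨k, hk, q, rfl⟩ := mod_rep Z j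
  rw [Z.per_mul] at hj
  rw [tl_add_mul] at hge ⊢
  obtain ⟨x, hx, hxe⟩ := hge
  rw [sg_add_mul] at hxe
  have hlen : (FreeMonoid.toList r).length = Z.n := by rw [hr]; simp
  have hu := h k (by rw [hlen]; exact hk) (by
    rw [hr, seg_getElem? Z.c Z.n k hk, seg_getElem? Z.c Z.n m hm]
    simp [hj]) x hx (by
    rw [io_tpre r Z hr k hk, io_tpre r Z hr m hm]
    exact hxe)
  obtain ⟨u, rfl⟩ := hu
  refine ⟨((u⁻¹ : (IM r)ˣ) : IM r), RU_unit (u⁻¹).isUnit, ?_⟩
  rw [sg_add_mul, hxe, ← mul_assoc, Units.inv_mul, one_mul]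

theorem mx_congr (r : FreeMonoid (α × Bool)) (Z : Cyc α) (m q : ℤ) (h : Mx r Z m) :
    Mx r Z (m + q * Z.n) := by
  intro j hj hge
  rw [Z.per_mul] at hj
  rw [tl_add_mul] at hge ⊢
  obtain ⟨x, hx, hxe⟩ := hge
  rw [sg_add_mul] at hxe
  obtain ⟨y, hy, hye⟩ := h j hj ⟨x, hx, hxe⟩
  exact ⟨y, hy, by rw [sg_add_mul]; exact hye⟩

theorem eta_per' {Z : Cyc α} (η : Stk Z) (i q : ℤ) : η.η (i + q * Z.n) = η.η i := by
  induction q with
  | zero => simp
  | succ q ih =>
    rw [← ih, ← η.per (i + q * Z.n)]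
    congr 1
    ring
  | pred q ih =>
    rw [← ih, ← η.per (i + (-(q : ℤ) - 1) * Z.n)]
    congr 1
    ring

theorem tht_per' {Z : Cyc α} (η : Stk Z) (j q : ℤ) :
    tht Z η.η (j + q * Z.n) = tht Z η.η j := by
  unfold tht
  rw [Z.per_mul]
  split
  · exact eta_per' η j q
  · rw [show j + q * (Z.n : ℤ) + 1 = (j + 1) + q * Z.n by ring]
    exact eta_per' η (j + 1) q

theorem tht_neg' {Z : Cyc α} (η : Stk Z) (j : ℤ) :
    tht Z (negStk η).η j = - tht Z η.η j := by
  unfold tht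
  split
  · rfl
  · rfl

/-- The heights of the steps of one letter are different. -/
theorem tht_inj {Z : Cyc α} (η : Stk Z) (j k : ℤ) (h : (Z.c j).1 = (Z.c k).1)
    (h2 : tht Z η.η j = tht Z η.η k) : (Z.n : ℤ) ∣ j - k := by
  have h3 := fTEQ α Z η PUnit PUnit.unit PUnit.unit k j rfl rfl (by
    rw [ed_tl, ed_tl, h]) h2
  exact h3.1

theorem choB (r : FreeMonoid (α × Bool)) (Z : Cyc α) (a : α) (i₀ : ℕ) (hi₀ : i₀ < Z.n)
    (hi : (Z.c i₀).1 = a)
    (H : ∀ j k : ℕ, j < Z.n → k < Z.n → (Z.c j).1 = a → (Z.c k).1 = a → j ≠ k →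
      Mx r Z j ∨ Mx r Z k) :
    ∃ (η : Stk Z) (m : ℤ), (∀ j : ℤ, (Z.c j).1 = (Z.c m).1 → tht Z η.η m ≤ tht Z η.η j) ∧
      Mx r Z m := by
  classical
  obtain ⟨η⟩ := aSTK α Z
  let S : Finset ℕ := (Finset.range Z.n).filter fun j => (Z.c j).1 = a
  have hS : S.Nonempty := ⟨i₀, by simp [S, hi₀, hi]⟩
  obtain ⟨m₁, hm₁, hmin⟩ := Finset.exists_min_image S (fun j => tht Z η.η j) hS
  obtain ⟨m₂, hm₂, hmax⟩ := Finset.exists_max_image S (fun j => tht Z η.η j) hS
  simp only [S, Finset.mem_filter, Finset.mem_range] at hm₁ hm₂ hmin hmax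
  have hmin' : ∀ j : ℤ, (Z.c j).1 = (Z.c (m₁ : ℤ)).1 → tht Z η.η m₁ ≤ tht Z η.η j := by
    intro j hj
    obtain ⟨k, hk, q, rfl⟩ := mod_rep Z j
    rw [Z.per_mul] at hj
    rw [tht_per']
    exact hmin k ⟨hk, hj.trans hm₁.2⟩
  by_cases h1 : Mx r Z m₁
  · exact ⟨η, m₁, hmin', h1⟩
  · by_cases h2 : m₁ = m₂
    · exfalso
      apply h1
      intro j hj hge
      obtain ⟨k, hk, q, rfl⟩ := mod_rep Z j
      rw [Z.per_mul] at hj
      have hka := hj.trans hm₁.2
      have e : tht Z η.η k = tht Z η.η m₁ := by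
        apply le_antisymm
        · rw [h2]; exact hmax k ⟨hk, hka⟩
        · exact hmin k ⟨hk, hka⟩
      have hd := tht_inj η k m₁ hj e
      have hkm : (k : ℤ) = m₁ := by
        obtain ⟨t, ht⟩ := hd
        have hn : (0 : ℤ) < Z.n := by exact_mod_cast Z.pos
        have h5 : (k : ℤ) < Z.n := by exact_mod_cast hk
        have h6 : (m₁ : ℤ) < Z.n := by exact_mod_cast hm₁.1
        have h7 : t = 0 := by
          by_contra hne
          rcases lt_or_gt_of_ne hne with hlt | hgt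
          · nlinarith
          · nlinarith
        rw [h7, mul_zero] at ht
        omega
      rw [hkm, tl_add_mul]
      refine ⟨1, RU_one r, ?_⟩
      rw [one_mul, sg_add_mul]
    · have h3 : Mx r Z m₂ := by
        rcases H m₁ m₂ hm₁.1 hm₂.1 hm₁.2 hm₂.2 h2 with h | h
        · exact absurd h h1
        · exact h
      refine ⟨negStk η, m₂, ?_, h3⟩
      intro j hj
      obtain ⟨k, hk, q, rfl⟩ := mod_rep Z j
      rw [Z.per_mul] at hj
      rw [tht_neg', tht_neg', tht_per']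
      exact neg_le_neg (hmax k ⟨hk, hj.trans hm₂.2⟩)

/-- The common form of the two cases. -/
theorem gfMax (r : FreeMonoid (α × Bool)) (a : α)
    (hocc : ∃ i : ℕ, ((FreeMonoid.toList r)[i]?.map Prod.fst) = some a)
    (hmax : ∀ i j : ℕ, i ≠ j → ((FreeMonoid.toList r)[i]?.map Prod.fst) = some a →
      ((FreeMonoid.toList r)[j]?.map Prod.fst) = some a → MaxPlace r i ∨ MaxPlace r j)
    (Z : Cyc α) (hr : FreeMonoid.toList r = seg Z.c 0 (1 * Z.n)) :
    ∃ (n : ℕ) (s : FreeGroup (Fin n)),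
      Nonempty ((IM r)ˣ ≃* PresentedGroup ({s} : Set (FreeGroup (Fin n)))) := by
  rw [one_mul] at hr
  have hlen : (FreeMonoid.toList r).length = Z.n := by rw [hr]; simp
  have hget : ∀ i : ℕ, i < Z.n → ((FreeMonoid.toList r)[i]?.map Prod.fst) = some (Z.c i).1 := by
    intro i hi
    rw [hr, seg_getElem? Z.c Z.n i hi]
    rfl
  obtain ⟨i₀, hi₀⟩ := hocc
  have hi₀' : i₀ < Z.n := by
    rw [← hlen]
    by_contra hcon
    rw [List.getElem?_eq_none (by omega)] at hi₀
    simp at hi₀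
  rw [hget i₀ hi₀'] at hi₀
  obtain ⟨η, m, h4, h5⟩ := choB r Z a i₀ hi₀' (by simpa using hi₀) (by
    intro j k hj hk hja hka hjk
    rcases hmax j k hjk (by rw [hget j hj, hja]) (by rw [hget k hk, hka]) with h | h
    · exact Or.inl (mx_of_maxPlace r Z hr j hj h)
    · exact Or.inr (mx_of_maxPlace r Z hr k hk h))
  exact gfStep tFGF tPRES fHPF fHPS fINH r Z hr η m h4 h5

end Pool.Agent.Helper96.GU
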