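import Pool.Agent.Helper96.GU.Defs
import Pool.Agent.Helper96.UT.StC
import Pool.Agent.Helper96.UT.StI

/-!
Project GU (MP_2c90c1_al), statements of the modules, with proofs in the docstrings.

Notation of the docstrings: `F = FreeGroup α`, `c, n, s` = `Z.c, Z.n, Z.s`; `v ⋆ g` = `act v g`
(`act_mul`: `v ⋆ (g h) = (v ⋆ g) ⋆ h`); `pre i` = `pre Z.c i`; the vertex `(u, k)` of the cell `u` is
`u ⋆ pre k` (`k : ℤ`), its step `(u, k)` goes from the vertex `(u, k)` to the vertex `(u, k + 1)` with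
the letter `c k` and has the edge `e(u,k) := ed (u ⋆ pre k) (c k)`.  For a cell `u ⋆ s = u`, so all is
periodic in `k` with period `n` (`act_pre_per`, `Z.per_mul`).  `mk` = `FreeGroup.mk`.
A theorem in these files may use everything in `Pool.Agent.Helper96.GU.Defs`,
`Pool.Agent.Helper96.UT.Defs` and `Pool.Agent.Helper96.UT.M_*` (import the file that you need).
-/

set_option autoImplicit false

namespace Pool.Agent.Helper96.GU

open Pool.Agent.Helper96.UT

/-! ### Counting -/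

/-- TOP (no dependence).  The number of the beginnings of the top arcs.

PROOF.  This is `Pool.Agent.Helper96.UT.StTOP` for `l = 1` and without the field `sc` of the complexes;
copy the proof in `Pool/Agent/Helper96/UT/M_TOP.lean` (it does not use `sc`, `E`, `sub`) and simplify:
now `act u Z.s = u` for `u ∈ C` replaces `cyc` and `fix`.  Outline: `S := C ×ˢ range n`.
(1) `{p ∈ S | TopV p}` is in bijection with `VC` by `p ↦` vertex (at a vertex of `VC` choose the strand with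
the largest `η`; unique, because `η i = η j` for `i, j < n` gives `i = j` by `inj` and then `u = u'` by
`act_inj`).  (2) `{p ∈ S | TopE p}` is in bijection with `EC` by `p ↦` edge.  (3) `TopV → TopE`.
So `|EC| = |{TopE}| = |{TopE, not TopV}| + |{TopV}| = |Bd| + |VC|`. -/
def StTOP : Prop := ∀ (α : Type) (Z : Cyc α) (η : Stk Z) (Ω : Type)
  [MulAction (FreeGroup α) Ω] (C : Finset Ω), (∀ u ∈ C, act u Z.s = u) →
  (Bd Z C η.η).card + (VC Z C).card = (EC Z C).card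

/-- SNG (no dependence).  A cell without beginnings of top arcs has a single vertex.

PROOF.  `T k := TopV Z C η u k`, `A k := TopE Z C η u k`; both depend only on `k mod n`.
(i) `T k → A k` and (ii) `T (k+1) → A k`: see `UT.StTOP` (3) and `UT.StARC` (ii), proofs in
`UT/M_TOP.lean`, `UT/M_ARC.lean`.  (ii): let `(u',k')` be a step of the edge of `(u,k)`; by `ed_eq` either
same direction: the vertex `(u',k'+1)` is the vertex `(u,k+1)`, so `η (k'+1) ≤ η (k+1)`, and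
`tht k' ≤ tht k` directly or by `mono`; or opposite direction: the vertex `(u',k')` is the vertex
`(u,k+1)`, `η k' ≤ η (k+1)`, and the claim follows directly or by `monobar`.
The hypothesis says `A k → T k` (for `0 ≤ k < n`, hence for all `k`).  Let `η k₀` be the maximum of `η`
(periodic, so it exists): `T k₀`.  `T (k+1) → A k → T k`, so `T k` for all `k ≤ k₀`, hence for all `k`.
Let `η k₁` be the minimum of `η`.  Claim: `Sg Z C u k₁`.  Let `u' ∈ C`, `u' ⋆ pre k' = u ⋆ pre k₁`.  By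
`T k₁`: `η k' ≤ η k₁`, so `η k' = η k₁`, and `n ∣ k' - k₁` by `inj`.  So `u' ⋆ pre k' = u' ⋆ pre k₁`
(`act_pre_per`) and `u' = u` by `act_inj`. -/
def StSNG : Prop := ∀ (α : Type) (Z : Cyc α) (η : Stk Z) (Ω : Type)
  [MulAction (FreeGroup α) Ω] (C : Finset Ω), (∀ u ∈ C, act u Z.s = u) →
  ∀ u ∈ C, (∀ i < Z.n, (u, i) ∉ Bd Z C η.η) → ∃ k : ℤ, Sg Z C u k

/-- LA (no dependence).  Linear algebra: Euler characteristic.

PROOF.  (Compare `UT/M_LIN.lean`.)  Let `X := {e // e ∈ E} → ℚ` (dimension `|E|`), `ext : X → (Ω × α → ℚ)` the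
extension by zero, `Λ' := Λ ∘ ext`.  By hypothesis `ker Λ'` is contained in the image of the linear map
`δ : ({x // x ∈ V} → ℚ) → X`, `(δ f)(x, a) = f (x ⋆ a) - f x` (restrict the `f` of the hypothesis to `V`).
The constant function `1` is in `ker δ` and is not `0` (`V` nonempty), so `dim (im δ) ≤ |V| - 1`, and
`dim ker Λ' ≤ |V| - 1`, i.e. `dim ker Λ' + 1 ≤ |V|`.  Rank-nullity (`LinearMap.finrank_range_add_finrank_ker`):
`|E| = dim (im Λ') + dim ker Λ'`.  First claim: `dim (im Λ') ≤ |ι|`.  Second claim: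
`dim (im Λ') ≥ |E| - (|V| - 1) ≥ |ι|`, so the image of `Λ'` is everything
(`Submodule.eq_top_of_finrank_eq`). -/
def StLA : Prop := ∀ (α : Type) (Ω : Type) [MulAction (FreeGroup α) Ω] (E : Finset (Ω × α))
  (V : Finset Ω) (ι : Type) [Fintype ι] (Λ : (Ω × α → ℚ) →ₗ[ℚ] (ι → ℚ)), V.Nonempty →
  (∀ (x : Ω) (a : α), (x, a) ∈ E → x ∈ V ∧ act x (lt (a, true)) ∈ V) →
  (∀ φ : Ω × α → ℚ, (∀ e, e ∉ E → φ e = 0) → Λ φ = 0 →
    ∃ f : Ω → ℚ, ∀ (x : Ω) (a : α), (x, a) ∈ E → φ (x, a) = f (act x (lt (a, true))) - f x) →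
  E.card + 1 ≤ V.card + Fintype.card ι ∧
  (V.card + Fintype.card ι ≤ E.card + 1 →
    ∀ t : ι → ℚ, ∃ φ : Ω × α → ℚ, (∀ e, e ∉ E → φ e = 0) ∧ Λ φ = t)

/-- GDQ (to prove: `theorem tGDQ : UT.StSTK → StLA → StTOP → StSNG → StGDQ`).  A complex with `H¹ = 0`
and at least one cell has a cell with a single vertex.

PROOF.  Let `η` be a stacking (STK).  LA with `E := EC Z C`, `V := VC Z C`, `ι := {u // u ∈ C}`,
`Λ φ := fun u => Sa φ u s` (`LinearMap.pi` of `SaL`).  `V` is nonempty.  The ends of an edge of `EC` are in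
`VC` (the vertices `(u,i)` and `(u,i+1)`; `(u,n) = (u,0)`; for `c i = (a, false)` the edge
`e(u,i) = (u ⋆ pre (i+1), a)`; it leads to the vertex `(u,i)`).  If `φ` is `0` outside `EC` and `Λ φ = 0` then
`Hh` says that `φ` vanishes on closed paths in `E`, so `potential E φ` gives `f` (note `EC ⊆ E`, by `sub`).
So `|EC| + 1 ≤ |VC| + |C|`, and by TOP `|Bd| + 1 ≤ |C|`.  If every `u ∈ C` had some `i < n` with
`(u,i) ∈ Bd` then `|C| ≤ |Bd|` (injection `u ↦ (u, i_u)`).  So SNG applies to some `u`. -/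
def StGDQ : Prop := ∀ (α : Type) (Z : Cyc α) (Ω : Type) [MulAction (FreeGroup α) Ω]
  (E : Set (Ω × α)) (C : Finset Ω) (v : Ω), Cpx Z E C → Hh Z E C v ∅ → C.Nonempty →
  ∃ u ∈ C, ∃ k : ℤ, Sg Z C u k

/-! ### Collapsing -/

/-- FRE (no dependence).  The edge of a step which starts at a single vertex is traversed by no
other step.

PROOF.  By `ed_eq` (from the step `(u,k)` to the step `(u',k')`): either the vertices `(u',k')`,
`(u,k)` agree, then `Sg` gives the claim; or `u' ⋆ pre k' = (u ⋆ pre k) ⋆ lt (c k)` and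
`c k' = bar (c k)`.  In this case
`u' ⋆ pre (k'+1) = (u' ⋆ pre k') ⋆ lt (c k') = u ⋆ pre k`, so `Sg` gives `n ∣ k' + 1 - k`, hence
`c k = c (k'+1)` (`per_mul`), and `c k' = bar (c k)` gives `c (k'+1) = bar (c k')`, against `red`.
(Compare `UT/M_FREE.lean`.) -/
def StFRE : Prop := ∀ (α : Type) (Z : Cyc α) (Ω : Type) [MulAction (FreeGroup α) Ω]
  (C : Finset Ω) (u : Ω) (k : ℤ), Sg Z C u k → ∀ u' ∈ C, ∀ k' : ℤ,
  ed (act u' (pre Z.c k')) (Z.c k') = ed (act u (pre Z.c k)) (Z.c k) →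
  (Z.n : ℤ) ∣ k' - k ∧ u' = u

/-- REQ (to prove: `theorem tREQ : StFRE → StREQ`).  Removal of a cell and of its free edge.

PROOF.  `e₀` = edge of the step `(u,k)`.  `Cpx`: `fix` clear; `sub`: `CE Z u' ⊆ E` for `u' ∈ C'`, and by FRE no
step of the cell `u' ≠ u` has the edge `e₀`.
`Hh`: let `φ` vanish on the cells of `C'` and on `S`.  Let `φ₀` be `φ` with the value at `e₀` replaced by `0`,
`x := Sa φ₀ u s = Sm φ₀ u (seg c 0 n)`, and `φ₁ := φ₀ + (value r at e₀)`, `r := - x` if `(c k).2`, `r := x`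
otherwise.  The boundary path `seg c 0 n` of `u` contains the edge `e₀` exactly once, in the step
`j = k mod n`, with letter `c j = c k` (FRE: a step `j' ∈ [0,n)` of `u` with the edge `e₀` has `n ∣ j' - k`).  So
(`Sm_seg`, `Finset.sum_eq_single`) `Sa φ₁ u s = x - x = 0`.  The cells `u' ∈ C'` do not contain `e₀`:
`Sa φ₁ u' s = Sa φ u' s = 0` (`Sm_congr_on` with the set `E \ {e₀}`, `InE_cell`, `mk_seg_s`, `Sa_mk`).
For `h ∈ S` with the path `q` in `E \ {e₀}`: `Sa φ₁ v h = Sm φ₁ v q = Sm φ v q = 0`.  So `Hh Z E C v S` applies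
to `φ₁`, and for a closed path `q` in `E \ {e₀}`: `Sm φ = Sm φ₁ = 0`. -/
def StREQ : Prop := ∀ (α : Type) (Z : Cyc α) (Ω : Type) [MulAction (FreeGroup α) Ω]
  (E : Set (Ω × α)) (C : Finset Ω), Cpx Z E C → ∀ u ∈ C, ∀ k : ℤ, Sg Z C u k →
  ∀ C' : Finset Ω, (∀ x, x ∈ C' ↔ x ∈ C ∧ x ≠ u) →
  Cpx Z (E \ {ed (act u (pre Z.c k)) (Z.c k)}) C' ∧
  ∀ (v : Ω) (S : Set (FreeGroup α)), Hh Z E C v S →
    (∀ h ∈ S, ∃ q : List (α × Bool), InE (E \ {ed (act u (pre Z.c k)) (Z.c k)}) v q ∧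
      FreeGroup.mk q = h) →
    Hh Z (E \ {ed (act u (pre Z.c k)) (Z.c k)}) C' v S

/-- RHO (to prove: `theorem tRHO : StFRE → StRHO`).  The free edge of a cell is replaced by the
complementary path of the cell.

PROOF.  `y := c k`, `e₀ := ed (u ⋆ pre k) y`, `R := (pre k)⁻¹ * pre (k + 1 - n)`; it is the value of the path
`invRev (seg c (k+1-n) (n-1))` from the vertex `(u,k)` to the vertex `(u,k+1-n) = (u,k+1)`.  By
`Z.pre_add`, `pre (k+1-n) = s⁻¹ * pre (k+1) = s⁻¹ * pre k * lt y`, so `R = (pre k)⁻¹ s⁻¹ (pre k) (lt y)`.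
Let `κ e := lt (e.2, true)` for `e ≠ e₀` and `κ e₀ := R` if `y.2`, `R⁻¹` otherwise (`classical`, `if`), and
`ρ x g := Cc κ x g`.
(1) `Cc_mul`.  (2) `Pm_eq_mk` with the set `E \ {e₀}` (`Cc_mk`).
(3) `u' ∈ C`, `u' ≠ u`: the path `seg c 0 n` from `u'` is in `E \ {e₀}` by FRE and `sub`; use (2), `mk_seg_s`.
(4) `ρ u s = 1`: `s = pre k * m * (pre k)⁻¹`, `m := (pre k)⁻¹ * s * pre k = mk (seg c k n)` (`mk_seg`, `pre_add`).
With `x := u ⋆ pre k`, `x ⋆ m = x`: `ρ u s = ρ u (pre k) * ρ x m * (ρ u (pre k))⁻¹` (`Cc_mul`, `Cc_inv`).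
`seg c k n = y :: seg c (k+1) (n-1)` (`seg_cons`; `n ≥ 1`).  `ρ x (lt y) = R` (`Cc_lt`; in both cases).  The path
`seg c (k+1) (n-1)` from `(u,k+1)` has steps `k+1+t`, `0 ≤ t < n-1`, `n ∤ (k+1+t) - k`, so by FRE it is in
`E \ {e₀}` and has the value `(pre (k+1))⁻¹ pre (k+n)`.  Product:
`(pre k)⁻¹ s⁻¹ pre (k+1) (pre (k+1))⁻¹ s pre k = 1`.
(5) The path `q'`: induction on `q`.  `q = z :: q₁`; `q₁'` for `q₁` from `x ⋆ z`.  If `ed x z ≠ e₀` take
`z :: q₁'` (`κ` gives `lt z`, see `Pm_eq_mk`).  If `ed x z = e₀`, by `ed_eq` either `x = (u,k)`, `z = y`: take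
`invRev (seg c (k+1-n) (n-1)) ++ q₁'` (its value is `R = ρ x (lt z)`; it is in `E \ {e₀}` by `InE_invRev` of
`seg c (k+1-n) (n-1)` from `(u,k+1-n)`, with end `(u,k)`, and FRE as in (4)); or `x = (u,k+1)`,
`z = bar y`: take `seg c (k+1-n) (n-1) ++ q₁'` (starting at `(u,k+1-n) = (u,k+1)`), value `R⁻¹`.
In all cases the new path has the same end point.
(6) Induction on `q = z :: q₁`: `mk q * (ρ x (mk q))⁻¹ = A * (lt z * (ρ x (lt z))⁻¹)`,
`A := lt z * (mk q₁ * (ρ x₁ (mk q₁))⁻¹) * (lt z)⁻¹`, `x₁ := x ⋆ z`.  `A ∈ Nc x` because the factor in the middle is in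
`Nc x₁` and `ed x z ∈ E` (lemma: `g ∈ Nc Z E C x₁ → lt z * g * (lt z)⁻¹ ∈ Nc Z E C x`; closure induction, the path
`p` becomes `z :: p`).  `lt z * (ρ x (lt z))⁻¹` is `1` if `ed x z ≠ e₀`; for `x = (u,k)`, `z = y`:
`lt y * R⁻¹ = (pre k)⁻¹ s (pre k)`; for `x = (u,k+1)`, `z = bar y`:
`(lt y)⁻¹ * R = (pre (k+1))⁻¹ s⁻¹ pre (k+1)`.  These are in `Nc x` (lemma: for all `j : ℤ`,
`(pre j)⁻¹ s (pre j) ∈ Nc Z E C (u ⋆ pre j)`: reduce to `0 ≤ j < n` by `j = j' + q n`, `pre j = s^q pre j'`; then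
`p := invRev (seg c 0 j')`, a path in `E` from `(u,j')` to `u`, `mk p = (pre j')⁻¹`). -/
def StRHO : Prop := ∀ (α : Type) (Z : Cyc α) (Ω : Type) [MulAction (FreeGroup α) Ω]
  (E : Set (Ω × α)) (C : Finset Ω), Cpx Z E C → ∀ u ∈ C, ∀ k : ℤ, Sg Z C u k →
  ∃ ρ : Ω → FreeGroup α → FreeGroup α,
    (∀ x g h, ρ x (g * h) = ρ x g * ρ (act x g) h) ∧
    (∀ (x : Ω) (q : List (α × Bool)), InE (E \ {ed (act u (pre Z.c k)) (Z.c k)}) x q →
      ρ x (FreeGroup.mk q) = FreeGroup.mk q) ∧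
    (∀ u' ∈ C, u' ≠ u → ρ u' Z.s = Z.s) ∧
    ρ u Z.s = 1 ∧
    (∀ (x : Ω) (q : List (α × Bool)), InE E x q → ∃ q' : List (α × Bool),
      InE (E \ {ed (act u (pre Z.c k)) (Z.c k)}) x q' ∧ FreeGroup.mk q' = ρ x (FreeGroup.mk q) ∧
      act x (FreeGroup.mk q') = act x (FreeGroup.mk q)) ∧
    (∀ (x : Ω) (q : List (α × Bool)), InE E x q →
      FreeGroup.mk q * (ρ x (FreeGroup.mk q))⁻¹ ∈ Nc Z E C x)

/-- HOM (to prove: `theorem tHOM : StRHO → StHOM`).  Products of conjugates of cells which are paths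
outside the free edge do not need the cell `u`.

PROOF.  `ρ` from RHO; `ρ x 1 = 1` (from the cocycle identity).  Claim: for all `g ∈ Nc Z E C v`: `v ⋆ g = v` and
`ρ v g ∈ N' := Nc Z (E \ {e₀}) C' v`.  `Subgroup.closure_induction`.  Products, inverses: cocycle identity at the
fixed point `v` (`ρ v (g h) = ρ v g * ρ v h`, `ρ v g⁻¹ = (ρ v g)⁻¹`).  Generators: `g = mk p * s * (mk p)⁻¹`,
`u' := v ⋆ mk p ∈ C`, `u' ⋆ s = u'`, so `v ⋆ g = v`.  With `P := ρ v (mk p)`: `ρ v g = P * ρ u' s * P⁻¹`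
(`ρ u' (mk p)⁻¹ = P⁻¹` because `ρ v (mk p * (mk p)⁻¹) = 1`).  If `u' = u` this is `1`.  Otherwise `u' ∈ C'`,
`ρ u' s = s`, and `P = mk p'` for a path `p'` in `E \ {e₀}` from `v` to `u'`, so it is a generator of `N'`.
Finally `ρ v (mk q) = mk q`. -/
def StHOM : Prop := ∀ (α : Type) (Z : Cyc α) (Ω : Type) [MulAction (FreeGroup α) Ω]
  (E : Set (Ω × α)) (C : Finset Ω), Cpx Z E C → ∀ u ∈ C, ∀ k : ℤ, Sg Z C u k →
  ∀ C' : Finset Ω, (∀ x, x ∈ C' ↔ x ∈ C ∧ x ≠ u) →
  ∀ (v : Ω) (q : List (α × Bool)), InE (E \ {ed (act u (pre Z.c k)) (Z.c k)}) v q →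
    FreeGroup.mk q ∈ Nc Z E C v →
    FreeGroup.mk q ∈ Nc Z (E \ {ed (act u (pre Z.c k)) (Z.c k)}) C' v

/-- FOR (no dependence).  In a graph on which all cochains vanish on closed paths the closed paths
are trivial.

PROOF.  Strong induction on `q.length`.  `q = []`: trivial.
(a) If `q = w₁ ++ [y, bar y] ++ w₂`: `w₁ ++ w₂` is shorter, a path in `E` from `x`, with the same product.
(b) If two vertices agree, `vt i = vt j`, `i < j < q.length`: `q = w₁ ++ w₂ ++ w₃`, `w₁ = q.take i`,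
`w₁ ++ w₂ = q.take j`.  `w₂` is closed at `vt i`, `0 < |w₂| < |q|`, so `mk w₂ = 1`; `w₁ ++ w₃` is shorter and
closed at `x`, so `mk w₁ * mk w₃ = 1`; together `mk q = 1`.
(c) Otherwise `UT.Simple E x q` (see `UT.StC`), `q ≠ []`.  Let `e` be the edge of the step `0`, `φ` the function
which is `1` at `e` and `0` elsewhere.  No other step has the edge `e` (see `UT.StCOV` (1) and its proof
in `UT/M_COV.lean`), so `Sm φ x q = ± 1` (`Sm_eq_sum`), but `Hh` gives `0`.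
(Splittings (a), (b): see `UT/M_IND.lean`.) -/
def StFOR : Prop := ∀ (α : Type) (Z : Cyc α) (Ω : Type) [MulAction (FreeGroup α) Ω]
  (E : Set (Ω × α)) (v : Ω), Hh Z E ∅ v ∅ →
  ∀ (x : Ω) (q : List (α × Bool)), InE E x q → act x (FreeGroup.mk q) = x → FreeGroup.mk q = 1

/-- COL (to prove: `theorem tCOL : StGDQ → StREQ → StRHO → StFOR → StCOL`).  In a complex with
`H¹(;ℚ) = 0` the closed paths are products of conjugates of cells.

PROOF.  Induction on `C.card` (for all `E`).  `C = ∅`: FOR, `mk q = 1`.  Otherwise GDQ gives `u, k`;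
`C' := C.erase u` (`classical`), `e₀` the edge, `q'` from RHO (5): a path in `E \ {e₀}` from `x` with
`mk q' = ρ x (mk q)`, closed at `x`.  REQ (with `S = ∅`): `Cpx`, `Hh` for `E \ {e₀}`, `C'`.  By induction
`mk q' ∈ Nc Z (E \ {e₀}) C' x ≤ Nc Z E C x` (monotone: `Subgroup.closure_mono`, `InE_mono`).
`mk q = (mk q * (ρ x (mk q))⁻¹) * mk q'`, the first factor is in `Nc Z E C x` by RHO (6). -/
def StCOL : Prop := ∀ (α : Type) (Z : Cyc α) (Ω : Type) [MulAction (FreeGroup α) Ω]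
  (E : Set (Ω × α)) (C : Finset Ω) (v : Ω), Cpx Z E C → Hh Z E C v ∅ →
  ∀ (x : Ω) (q : List (α × Bool)), InE E x q → act x (FreeGroup.mk q) = x →
    FreeGroup.mk q ∈ Nc Z E C x

/-! ### The initial complex -/

/-- The initial complex for an element `w` of `L`. -/
structure Ini {α : Type} {Ω : Type} [MulAction (FreeGroup α) Ω] (Z : Cyc α)
    (L : Subgroup (FreeGroup α)) (w : FreeGroup α) (v : Ω) (E : Set (Ω × α)) (C : Finset Ω) :
    Prop where
  stab : ∀ h ∈ L, act v h = v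
  mem : v ∈ C
  cpx : Cpx Z E C
  nc : w ∈ Nc Z E C v
  hh : Hh Z E C v (L : Set (FreeGroup α))

/-- EXI (no dependence).  Existence.

PROOF.  (Compare `UT/M_EXZ.lean`.)  By `UT.fin_EXZ` there is a finite set `S` with
`w ∈ closure {g s g⁻¹ | g ∈ S}`.  Let `L₁` be the subgroup generated by `L` and these elements, `Ω := F ⧸ L₁`,
`v := 1·L₁`: `v ⋆ g = v ⋆ h ↔ g h⁻¹ ∈ L₁` (`UT.act_coset_eq_EXZ`), `E := univ`, `C := {v} ∪ {v ⋆ g | g ∈ S}`.
`stab`, `mem` clear.  `fix`: `v ⋆ s = v` (`s ∈ L`), `v ⋆ (g s) = v ⋆ g`.  `nc`: every `g s g⁻¹`, `g ∈ S`, is a generator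
of `Nc` (choose a word `p` for `g`, `UT.rep_EXZ`, `InE_univ`).  `hh`: let `φ` vanish on the cells and on `L`.
`{g | v ⋆ g = v ∧ Sa φ v g = 0}` is a subgroup (`Sa_mul`, `Sa_inv`) which contains `L` and the `g s g⁻¹`
(`Sa φ v (g s g⁻¹) = Sa φ v g + Sa φ (v ⋆ g) s + Sa φ (v ⋆ g) g⁻¹ = 0`), so it contains `L₁`.  Let `q` be closed
at `x`; `x = v ⋆ g` for some `g` (every element of `F ⧸ L₁` is of this form); `v ⋆ (g * mk q * g⁻¹) = v`, so
`g * mk q * g⁻¹ ∈ L₁` and `0 = Sa φ v (g * mk q * g⁻¹) = Sa φ x (mk q) = Sm φ x q`. -/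
def StEXI : Prop := ∀ (α : Type) (Z : Cyc α) (L : Subgroup (FreeGroup α)), Z.s ∈ L →
  ∀ w ∈ Subgroup.normalClosure ({Z.s} : Set (FreeGroup α)),
  ∃ (Ω : Type) (_ : MulAction (FreeGroup α) Ω) (v : Ω) (C : Finset Ω),
    Ini Z L w v (Set.univ : Set (Ω × α)) C

/-- RDI (to prove: `theorem tRDI : StFRE → StREQ → StHOM → StRDI`).  Removal of a cell with a single
vertex which is not the base cell.

PROOF.  `e₀` := edge of the step `(u,k)`, `E' := E \ {e₀}`, `C' := C.erase u`.  `CE Z v ⊆ E'`: `⊆ E` by `cpx.sub`, and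
`e₀ = e(v,i)` would give `v = u` by FRE.  For `h ∈ L` let `q` be a path in `Γ` (`Gen`): by `InG_InE` (with `g = 1`)
`InE (CE Z v) v q`, so `InE E' v q`.  `cpx`, `hh`: REQ with `S = L`.  `nc`: HOM for the path `q` of `w`. -/
def StRDI : Prop := ∀ (α : Type) (Z : Cyc α) (L : Subgroup (FreeGroup α)), Gen L Z →
  ∀ w ∈ L, ∀ (Ω : Type) [MulAction (FreeGroup α) Ω] (v : Ω) (E : Set (Ω × α)) (C : Finset Ω),
  Ini Z L w v E C → ∀ u ∈ C, u ≠ v → ∀ k : ℤ, Sg Z C u k →
  ∃ (E' : Set (Ω × α)) (C' : Finset Ω), C'.card < C.card ∧ Ini Z L w v E' C'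

/-- MIN (to prove: `theorem tMIN : StEXI → StRDI → StSNG → StMIN`).  A minimal initial complex.

PROOF.  Claim: for all `N`, `Ω`, `v`, `E`, `C` with `C.card = N` and `Ini Z L w v E C` the conclusion holds (with
the same `Ω`, `v`); strong induction on `N`.  If every `u ∈ C` has some `i < n` with `(u,i) ∈ Bd Z C η` then
`|C| ≤ |Bd|` (injection).  Otherwise some `u ∈ C` has none, and SNG gives `k` with `Sg Z C u k`.  If `u = v` this
is the first alternative.  If `u ≠ v`, RDI gives a smaller one; induction. -/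
def StMIN : Prop := ∀ (α : Type) (Z : Cyc α) (η : Stk Z) (L : Subgroup (FreeGroup α)),
  Z.s ∈ L → Gen L Z → ∀ w ∈ L, w ∈ Subgroup.normalClosure ({Z.s} : Set (FreeGroup α)) →
  ∃ (Ω : Type) (_ : MulAction (FreeGroup α) Ω) (v : Ω) (E : Set (Ω × α)) (C : Finset Ω),
    Ini Z L w v E C ∧ ((∃ k : ℤ, Sg Z C v k) ∨ C.card ≤ (Bd Z C η.η).card)

/-! ### The base cell has a single vertex -/

/-- CYK (to prove: `theorem tCYK : StFRE → StRHO → UT.StFGF → StCYK`).  If the base cell has a single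
vertex then `L` modulo the normal closure of `s` is cyclic.

PROOF.  `Θ := F ⧸ L`, `o := 1·L`: `o ⋆ g = o ⋆ h ↔ g h⁻¹ ∈ L` (`UT.act_coset_eq_EXZ`), `o ⋆ g = o ↔ g ∈ L`.
`Sg Z {o} o k`: if `o ⋆ pre k' = o ⋆ pre k` then `pre k' * (pre k)⁻¹ ∈ L` fixes `v`, so
`v ⋆ pre k' = v ⋆ pre k` and `n ∣ k' - k`.  RHO for `E = univ`, `C = {o}`, `u = o` gives `ρ`.
`R h := ρ o h` is a homomorphism on `L` (`o ⋆ h = o`), `R s = 1`, and `h * (R h)⁻¹ ∈ Nc Z univ {o} o ≤ Ns L Z`
(a generator `mk p * s * (mk p)⁻¹` has `o ⋆ mk p = o`, so `mk p ∈ L`) for `h ∈ L` (take a word of `h`).  So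
(*) `R h = 1` and `h ∈ L` imply `h ∈ Ns L Z`.
The image `L' := R(L)` is a subgroup of `F`, generated by `R h₁`, `R h₂`; by FGF `e : L' ≃* FreeGroup (Fin p)`.
Claim: `p ≤ 1`.  Let `χ₀ : L → ℚ`, `h ↦ Sa φ o h` with `φ : Θ × α → ℚ` the indicator of the edge `e₀` of the step
`(o,k)`: a homomorphism (to `ℚ`, additive), and `χ₀ s = ± 1` by FRE (the path `seg c 0 n` from `o` has the edge
`e₀` exactly once, in the step `k mod n`; see REQ).  If `p ≥ 2` let `χ₁, χ₂ : L → ℚ` be the exponent sums of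
the generators `0`, `1` of `FreeGroup (Fin p)` of `e (R h)`.  `χ₁ s = χ₂ s = 0`.  The linear map
`ℚ³ → ℚ²`, `(a,b,c) ↦ ((a χ₀ + b χ₁ + c χ₂)(h_j))_j` has a nonzero vector `(a,b,c)` in its kernel; the
homomorphism `a χ₀ + b χ₁ + c χ₂` vanishes on `h₁, h₂`, hence on `L`.  At `s`: `± a = 0`.  At preimages
of the generators `0`, `1` (in `L`, `e ∘ R` is surjective): `b = 0`, `c = 0`.  Contradiction.
So `p ≤ 1` and all elements of `FreeGroup (Fin p)` are powers of one element `e (R a)`, `a ∈ L`.  For `h ∈ L`: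
`R h = (R a)^m = R (a^m)` for some `m`, so `R (h (a^m)⁻¹) = 1` and (*) gives the claim. -/
def StCYK : Prop := ∀ (α : Type) (Z : Cyc α) (L : Subgroup (FreeGroup α)) (h₁ h₂ : FreeGroup α),
  L = Subgroup.closure {h₁, h₂} → Z.s ∈ L →
  ∀ (Ω : Type) [MulAction (FreeGroup α) Ω] (v : Ω), (∀ h ∈ L, act v h = v) →
  ∀ k : ℤ, (∀ k' : ℤ, act v (pre Z.c k') = act v (pre Z.c k) → (Z.n : ℤ) ∣ k' - k) →
  ∃ a ∈ L, ∀ h ∈ L, ∃ m : ℤ, h * (a ^ m)⁻¹ ∈ Ns L Z

/-! ### The property R2 -/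

/-- DUA (no dependence).  Duality.

PROOF.  `I, J` the index types of `TT`, `T := TT Z Ω Θ`, `G := Gd Z o B D`.
`→`: Let `K := Finsupp.supported ℚ ℚ G` (or the submodule of the `x` with support in `G`).  `T` restricted to
`K` is injective, so there is a linear `S : (J →₀ ℚ) → K` with `S (T x) = x` for `x ∈ K`
(`LinearMap.exists_leftInverse_of_injective`).  Given `ψ, κ` let `ξ : (I →₀ ℚ) → ℚ` be the linear map with
`ξ (single (inl e) 1) = ψ e`, `ξ (single (inr p) 1) = κ p` (`Finsupp.linearCombination`), and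
`Φ := ξ ∘ S : (J →₀ ℚ) → ℚ`; `Φ (T x) = ξ x` for `x ∈ K`.  `φ e := Φ (single (inl e) 1)`,
`g x := Φ (single (inr x) 1)`.  Apply this to `x = single (inl e) 1` (`e` admissible) and to
`x = single (inr p) 1`, `p ∈ D` (`Sa_map` with `Φ`: `Φ (Sa (fun e => single (inl e) 1) p s) = Sa φ p s`).
`←`: Let `x` have support in `G`, `T x = 0`, and `i₀ ∈ x.support`.  Take for `(ψ, κ)` the indicator function of
`i₀` (`ψ e = 1` if `inl e = i₀`, else `0`, etc.) and `φ, g` from R2s, `Φ : (J →₀ ℚ) → ℚ` linear with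
`Φ (single (inl e) 1) = φ e`, `Φ (single (inr x) 1) = g x`.  For `i ∈ G`: `Φ (T (single i 1))` is `1` if `i = i₀`,
`0` otherwise.  So `0 = Φ (T x) = Σ_{i ∈ supp} x_i Φ (T (single i 1)) = x_{i₀}`. -/
def StDUA : Prop := ∀ (α : Type) (Z : Cyc α) (Ω Θ : Type) [MulAction (FreeGroup α) Ω]
  [MulAction (FreeGroup α) Θ] (o : Θ) (B : Set (Ω × Θ)) (D : Set Ω), R2 Z o B D ↔ R2s Z o B D

/-- ABS (no dependence).  Injectivity over an infinite cyclic cover.

PROOF.  `t` is injective: `t i = t j` gives `p i = p j`, `h i = h j`, so `i = j`; it is bijective.  Let `t_*`, `p_*`, … be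
`Finsupp.mapDomain`.
(D) For `N : ℕ`: if `y` has its support in `{i | a ≤ h i < a + N, p i ∈ G}` and `p_* y = 0` then there is `z` with
support in `{i | a ≤ h i < a + N - 1, p i ∈ G}`, `y = t_* z - z`.  Induction on `N`.  `N = 0`: `y = 0`, `z = 0`.
`N = 1`: `p` is injective on the support (height `a`), so `y = 0` (`Finsupp.mapDomain_injOn`), `z = 0`.
`N + 1`, `N ≥ 1`: let `y₁` be the part of `y` of height `a + N` (`Finsupp.filter`), `z₁ := (t⁻¹)_* y₁` (height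
`a + N - 1 ≥ a`), `y' := y - (t_* z₁ - z₁) = (y - y₁) + z₁` has support in heights `[a, a + N)`, `p_* y' = 0`
(`p ∘ t = p`), induction gives `z'` and `z := z' + z₁`.
(E) If `t'_* z = z` then `z = 0`: otherwise let `j` be an element of the support of maximal height `h' j`;
`z (t' j) = (t'_* z) (t' j) = z j ≠ 0` (`t'` injective), and `t' j` has a larger height.
Main claim: for all `N` and `a`, if `x` has its support in `{i | a ≤ h i < a + N, p i ∈ G}` and `T' x = 0` then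
`x = 0`.  Induction on `N`; `N = 0` clear.  `T (p_* x) = p'_* (T' x) = 0` and `p_* x` has support in `G`, so
`p_* x = 0`.  By (D) `x = t_* z - z`.  `0 = T' x = t'_* (T' z) - T' z`, so `T' z = 0` by (E), and `z = 0` by induction
(`z` has its support in the window of length `N - 1`).  So `x = 0`.
Every `x` has a window (finite support). -/
def StABS : Prop := ∀ (I J I' J' : Type) (T : (I →₀ ℚ) →ₗ[ℚ] (J →₀ ℚ))
  (T' : (I' →₀ ℚ) →ₗ[ℚ] (J' →₀ ℚ)) (p : I' → I) (h : I' → ℤ) (t : I' → I')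
  (p' : J' → J) (h' : J' → ℤ) (t' : J' → J'),
  (∀ i, p (t i) = p i) → (∀ i, h (t i) = h i + 1) → (∀ i j, p i = p j → h i = h j → i = j) →
  (∀ i, ∃ j, t j = i) → (∀ j, h' (t' j) = h' j + 1) → Function.Injective t' →
  (∀ x : I' →₀ ℚ, T' (x.mapDomain t) = (T' x).mapDomain t') →
  (∀ x : I' →₀ ℚ, (T' x).mapDomain p' = T (x.mapDomain p)) →
  ∀ G : Set I, (∀ x : I →₀ ℚ, (∀ i ∈ x.support, i ∈ G) → T x = 0 → x = 0) →
  ∀ x : I' →₀ ℚ, (∀ i ∈ x.support, p i ∈ G) → T' x = 0 → x = 0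

/-- ZCV (to prove: `theorem tZCV : StABS → StZCV`).  R2 passes to infinite cyclic covers.

PROOF.  ABS with `T := TT Z Ω Θ`, `T' := TT Z (Zc θ) Θ`, `G := Gd Z o B D`; `p := Sum.map (fun e => ((e.1.1.1, e.1.2), e.2))
(fun x => x.1)`, `h (inl e) := e.1.1.2`, `h (inr x) := x.2` (heights), `t` adds `1` to the height (in the component
`Zc θ`, `(p, m) ↦ (p, m + 1)`), `p' := Sum.map (fun e => (e.1.1, e.2)) (fun x => (x.1.1, x.2))`, and `h'`, `t'` in the same
way.  Let `τ : Zc θ → Zc θ`, `(p, m) ↦ (p, m+1)` and `π : Zc θ → Ω` the projection; both are equivariant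
(`act_zp`).  The two compatibility conditions need to be checked on `x = single i r` (linear maps:
`Finsupp.addHom_ext`/`LinearMap` ext, with `Finsupp.lmapDomain`): for `i = inl e` all terms are `single`s, use
equivariance of `τ`, `π`; for `i = inr y`: `Sa (fun e => single (inl e) 1) (τ y) s
= Sa (fun e => single (inl (τ e.1, e.2)) 1) y s` (`Sa_comp`) `= t'_* (Sa (fun e => single (inl e) 1) y s)` (`Sa_map`,
`Finsupp.mapDomain_single`), and the same for `π`: `p'_* (Sa (fun e => single (inl e) 1) y s) =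
Sa (fun e => single (inl (π e.1, e.2)) 1) y s = Sa (fun e => single (inl e) 1) (π y) s`.
The support condition: `i ∈ Gd Z o B' D'` iff `p i ∈ Gd Z o B D`. -/
def StZCV : Prop := ∀ (α : Type) (Z : Cyc α) (Ω Θ : Type) [MulAction (FreeGroup α) Ω]
  [MulAction (FreeGroup α) Θ] (θ : Ω × α → ℤ) (o : Θ) (B : Set (Ω × Θ)) (D : Set Ω),
  R2 Z o B D → R2 Z o {x : Zc θ × Θ | (x.1.1, x.2) ∈ B} {x : Zc θ | x.1 ∈ D}

/-- TWU (to prove: `theorem tTWU : StZCV → StTWU`).  The data of the tower in the cover.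

PROOF.  `r2`: ZCV.  The others from `act_zp`: `(v,0) ⋆ mk w = (v ⋆ mk w, Sa θ v (mk w))`, and
`(v ⋆ mk w, m) ⋆ s = (v ⋆ mk w ⋆ s, m + Sa θ (v ⋆ mk w) s) = (v ⋆ mk w, m)`. -/
def StTWU : Prop := ∀ (α : Type) (Z : Cyc α) (Ω Θ : Type) [MulAction (FreeGroup α) Ω]
  [MulAction (FreeGroup α) Θ] (o : Θ) (W : Finset (List (α × Bool))) (v : Ω)
  (B : Set (Ω × Θ)) (D : Set Ω), Tw Z o W v B D → ∀ θ : Ω × α → ℤ,
  (∀ w ∈ W, Sa θ (act v (FreeGroup.mk w)) Z.s = 0) →
  Tw Z o W (zp θ v 0) {x : Zc θ × Θ | (x.1.1, x.2) ∈ B} {x : Zc θ | x.1 ∈ D}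

/-- LFT (no dependence).  If the lift of the paths to the cover has no more vertices then the cochain
is a coboundary on the paths.

PROOF.  `v' := zp θ v 0`.  `vt v' w i = zp θ (vt v w i) (Sa θ v (mk (w.take i)))` (`act_zp`).  The projection
`VW W v' → VW W v` (first components) is surjective, so by the hypothesis on cardinalities it is injective
(`Finset.surj_on... / Finset.injOn_of_surjOn_of_card_le`).  So there is `g : Ω → ℤ` such that every vertex
`(p, m)` of `VW W v'` has `m = g p` (choose; `0` outside).  Let `e = ed (vt v w i) w[i]` be an edge of `EW W v`; both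
`vt v' w i` and `vt v' w (i+1)` are in `VW W v'` and the difference of their heights is
`Sa θ (vt v w i) (lt w[i]) = ± θ e`; so `± θ e = g (vt v w (i+1)) - g (vt v w i)`, which says
`θ e = g (e.1 ⋆ lt (e.2, true)) - g e.1` for all `e ∈ EW W v` (both signs; see `Sm_cob`, `ed`).
By `Sm_congr_on` and `Sm_cob`: `Sm θ x q = g (x ⋆ mk q) - g x = 0`. -/
def StLFT : Prop := ∀ (α : Type) (Ω : Type) [MulAction (FreeGroup α) Ω] (θ : Ω × α → ℤ)
  (W : Finset (List (α × Bool))) (v : Ω), (VW W (zp θ v 0)).card ≤ (VW W v).card →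
  ∀ (x : Ω) (q : List (α × Bool)), InE (EW W v) x q → act x (FreeGroup.mk q) = x →
    Sm θ x q = 0

/-- DEN (no dependence).  Clearing denominators.

PROOF.  `¬ Hh` gives `φ : Ω × α → ℚ` with `Sa φ u s = 0` for `u ∈ C` and a closed path `q` in `E` at `x` with
`Sm φ x q ≠ 0`.  Let `T` be the finite set of the edges of the paths `seg c 0 n` from `u`, `u ∈ C`, and of `q` from
`x` (`ed (vt v w i) w[i]`, `i < w.length`).  Let `d ≥ 1` be a common denominator of the values `φ e`, `e ∈ T`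
(`d := ∏_{e ∈ T} (φ e).den`), and `θ e := (d * φ e).num` for all `e`; for `e ∈ T`: `(θ e : ℚ) = d * φ e`.  For a path
`w` from `y` all edges of which are in `T`: `((Sm θ y w : ℤ) : ℚ) = d * Sm φ y w` (`Sm_map`, `Sm_congr_on`,
`InE T y w` by `InE_iff`). -/
def StDEN : Prop := ∀ (α : Type) (Z : Cyc α) (Ω : Type) [MulAction (FreeGroup α) Ω]
  (E : Set (Ω × α)) (C : Finset Ω) (v : Ω), ¬ Hh Z E C v ∅ →
  ∃ θ : Ω × α → ℤ, (∀ u ∈ C, Sa θ u Z.s = 0) ∧
    ∃ (x : Ω) (q : List (α × Bool)), InE E x q ∧ act x (FreeGroup.mk q) = x ∧ Sm θ x q ≠ 0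

/-- TWF (to prove: `theorem tTWF : StCOL → StTWF`).  The end of the tower.

PROOF.  The pullback complex over `Ω × Θ` (diagonal action, `act_prod`):
`E_Z := {e : (Ω × Θ) × α | e.1 ∈ B ∧ (e.1.2, e.2) ∈ CE Z o ∧ (e.1.1, e.2) ∈ E}`,
`C_Z := {(u, o) | u ∈ C, (u, o) ∈ B}` (`(C.filter …).image`).
`Cpx Z E_Z C_Z`: `fix`: `u ⋆ s = u`, `o ⋆ s = o`.  `sub`: the edge of the step `i` of the cell `(u,o)`,
`ed ((u,o) ⋆ pre i) (c i) = ((x, γ), a)`: its vertex is in `B` (`inv`), `(γ, a)` is the edge of the step `i` of `o`,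
`(x, a)` that of `u` (`ed_comp` with the projections).
`Hh Z E_Z C_Z (v,o) ∅`: let `ψ` vanish on the cells of `C_Z`.  R2s for `ψ` and `κ = 0` gives `φ, g`.  For `u ∈ C`:
if `(u,o) ∈ B`, then on the cell `(u,o)` (`Sm_congr_on` on the path `seg c 0 n`, `InE_cell`; `Sm_add`, `Sm_comp`,
`Sm_cob`) `0 = Sa ψ (u,o) s = Sa φ u s + (g ((u,o) ⋆ s) - g (u,o)) = Sa φ u s`; otherwise `u ∈ D` and
`Sa φ u s = 0`.  So `Hh Z E C v ∅` applies to `φ`.  A closed path `q` in `E_Z` at `(x,γ)` projects to a closed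
path in `E` at `x` (`InE_comp`, `InE_mono`): `Sm ψ (x,γ) q = Sm φ x q + (g - g) = 0`.
COL: for the given `q` we have `InE E_Z (v,o) q` (the vertices are in `B` by `inv`; induction along `q`, or
`InE` of an intersection, `InE_comp`) and `(v,o) ⋆ mk q = (v,o)`, so `mk q ∈ Nc Z E_Z C_Z (v,o)`.  Its
generators `mk p * s * (mk p)⁻¹` have `(v,o) ⋆ mk p = (u, o)`, so `o ⋆ mk p = o`, `mk p ∈ L`: they are
generators of `Ns L Z`. -/
def StTWF : Prop := ∀ (α : Type) (Z : Cyc α) (L : Subgroup (FreeGroup α)) (Ω Θ : Type)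
  [MulAction (FreeGroup α) Ω] [MulAction (FreeGroup α) Θ] (o : Θ) (v : Ω) (B : Set (Ω × Θ))
  (D : Set Ω) (E : Set (Ω × α)) (C : Finset Ω),
  (∀ g : FreeGroup α, act o g = o ↔ g ∈ L) → Z.s ∈ L →
  (∀ x ∈ B, ∀ g : FreeGroup α, act x g ∈ B) → (v, o) ∈ B → Cpx Z E C →
  (∀ u ∈ C, (u, o) ∈ B ∨ u ∈ D) → R2s Z o B D → Hh Z E C v ∅ →
  ∀ q : List (α × Bool), InE (CE Z o) o q → InE E v q → act v (FreeGroup.mk q) = v →
    FreeGroup.mk q ∈ L → FreeGroup.mk q ∈ Ns L Z

/-- TOW (to prove: `theorem tTOW : StDUA → StTWU → StLFT → StDEN → StTWF → StTOW`).  The tower.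

PROOF.  `W' := W.image (fun w => w ++ seg c 0 n)` (`classical`), `N := Σ_{w ∈ W'} (w.length + 1)`.  Strong induction
on `N - |VW W' v|` (for all `Ω, v, B, D`).  `E := EW W' v`, `C := W.image (fun w => v ⋆ mk w)`.
`Cpx Z E C`: `fix` from `Tw.fix`.  `sub`: `InE E v (w ++ seg c 0 n)` (`InE_EW`), so the path `seg c 0 n` from
`u := v ⋆ mk w` is in `E` (`InE_append`); an edge `e(u,i)` of `CE Z u` equals `e(u, i mod n)` (`act_pre_per`,
`per_mul`), which is in `E` by `InE_seg`.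
The set of `g` with `v ⋆ g = v` and `∃ P, InE E v P ∧ mk P = g` is a subgroup (`InE_append`, `InE_invRev`) which
contains `mk w * s * (mk w)⁻¹`, `w ∈ W` (path `w ++ seg c 0 n ++ invRev w`).  So it contains `mk q`; by
`common_red` we may replace `q` by a path with the same product and both `InE (CE Z o) o q`, `InE E v q`.
If `Hh Z E C v ∅`: TWF (R2s from DUA).  Otherwise DEN gives `θ` with `Sa θ u s = 0` on `C` and a closed
path in `E` with `Sm θ ≠ 0`.  By LFT (contraposition) `|VW W' (zp θ v 0)| > |VW W' v|`, and it is `≤ N`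
(`card_VW`).  TWU for `W` and the induction hypothesis for `Zc θ`, `zp θ v 0` give the claim. -/
def StTOW : Prop := ∀ (α : Type) (Z : Cyc α) (L : Subgroup (FreeGroup α)), Z.s ∈ L →
  ∀ (Θ : Type) [MulAction (FreeGroup α) Θ] (o : Θ), (∀ g : FreeGroup α, act o g = o ↔ g ∈ L) →
  ∀ (W : Finset (List (α × Bool))) (q : List (α × Bool)), InE (CE Z o) o q →
  FreeGroup.mk q ∈ L →
  FreeGroup.mk q ∈ Subgroup.closure {x : FreeGroup α | ∃ w ∈ W,
    x = FreeGroup.mk w * Z.s * (FreeGroup.mk w)⁻¹} →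
  ∀ (Ω : Type) [MulAction (FreeGroup α) Ω] (v : Ω) (B : Set (Ω × Θ)) (D : Set Ω),
  Tw Z o W v B D → FreeGroup.mk q ∈ Ns L Z

/-! ### The start of the tower -/

/-- LV0 (to prove: `theorem tLV0 : StLA → StTOP → StLV0`).  The start of the tower if `L` is generated
by two elements.

PROOF.  LA with `E := EC Z C`, `V := VC Z C` (not empty, `v ∈ C`), `ι := Fin 2 ⊕ {p // p ∈ C ∧ p ≠ v}`,
`Λ φ := (Sa φ v h₁, Sa φ v h₂; Sa φ p s)` (`SaL`).  Ends of edges: see GDQ.  If `φ` is `0` outside `EC` and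
`Λ φ = 0`, then `Sa φ v` is a homomorphism on `L` (`stab`, `Sa_mul`) which vanishes on `h₁, h₂`, so it vanishes
on `L` (`Subgroup.closure_induction`), in particular at `s`: `φ` vanishes on all cells, and `Ini.hh` says that it
vanishes on closed paths in `E`; `potential` and `EC ⊆ E`.  Cardinalities: `|ι| = 2 + (|C| - 1)`, and by TOP
`|VC| + |C| ≤ |VC| + |Bd| = |EC|`, so `|VC| + |ι| ≤ |EC| + 1`: `Λ` is surjective (second part of LA).
Now let `ψ, κ` be given, `ψ' (γ, a) := ψ ((f γ, γ), a)`.  Choose `φ` with `Sa φ v h_j = Sa ψ' o h_j` and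
`Sa φ p s = κ p` for `p ∈ C`, `p ≠ v`.  Let `χ (γ, a) := ψ' (γ, a) - φ (f γ, a)` on `Θ × α`.
`Sa χ o h_j = 0` (`Sa_sub`, `Sa_comp`), so `Sa χ o h = 0` for all `h ∈ L`.  Every closed path `q` in `CE Z o` at
`x` has `Sm χ x q = 0`: for `q = []` clear; otherwise `x` is an end of an edge of `CE Z o`, so `x = o ⋆ pre i` for
some `i`; `h := pre i * mk q * (pre i)⁻¹` fixes `o`, so it is in `L`, and
`0 = Sa χ o h = Sa χ o (pre i) + Sm χ x q - Sa χ o (pre i)`.  `potential` for `CE Z o`: `g₀ : Θ → ℚ` with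
`χ (γ, a) = g₀ (γ ⋆ a) - g₀ γ` on `CE Z o`.  `g (p, γ) := g₀ γ`: for `e.1 = (f γ, γ)` this is the claim. -/
def StLV0 : Prop := ∀ (α : Type) (Z : Cyc α) (η : Stk Z) (L : Subgroup (FreeGroup α))
  (h₁ h₂ : FreeGroup α), L = Subgroup.closure {h₁, h₂} → Z.s ∈ L →
  ∀ (Ω : Type) [MulAction (FreeGroup α) Ω] (v : Ω) (E : Set (Ω × α)) (C : Finset Ω)
  (w : FreeGroup α), Ini Z L w v E C → C.card ≤ (Bd Z C η.η).card →
  ∀ (Θ : Type) [MulAction (FreeGroup α) Θ] (o : Θ), (∀ g : FreeGroup α, act o g = o ↔ g ∈ L) →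
  ∀ f : Θ → Ω, (∀ (x : Θ) (g : FreeGroup α), f (act x g) = act (f x) g) → f o = v →
  R2s Z o {x : Ω × Θ | x.1 = f x.2} {p : Ω | p ∈ C ∧ p ≠ v}

/-- LVD (no dependence).  The start of the tower if `H₁(L) → H₁(F)` is injective.

PROOF.  Let `ψ` be given (there is no condition for `κ`), `ψ' (γ, a) := ψ ((v, γ), a)`, and `Ψ : L → ℚ`,
`h ↦ Sa ψ' o h`, a homomorphism (`o ⋆ h = o`).  Claim: there is a homomorphism `Φ : F → ℚ` (i.e.
`F →* Multiplicative ℚ`) which agrees with `Ψ` on `L`.  `Ψ` kills `commutator L`; let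
`j : L → Additive (Abelianization F)`; by hypothesis `ker j` (the elements of `L` in `commutator F`) is contained
in `commutator L`, so `Ψ` factors through the image of `j`, and it extends to `Abelianization F` because `ℚ` is
divisible (`Module.Baer.of_divisible`, `Module.Baer.extension_property_addMonoidHom`).  (One can
also use the abelianization of `L` and the injective map `Abelianization L → Abelianization F`.)
`φ (x, a) := Φ (FreeGroup.of a)` for all `x : Ω` (a one point set); `Sa φ v g = Φ g` for all `g` (induction on a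
word).  `χ (γ, a) := ψ' (γ, a) - φ (v, a)` has `Sa χ o h = 0` for `h ∈ L` (`Sa_sub`, `Sa_comp` with the constant
map `Θ → Ω`).  Now as in LV0: `χ = δ g₀` on `CE Z o`, `g (p, γ) := g₀ γ`. -/
def StLVD : Prop := ∀ (α : Type) (Z : Cyc α) (L : Subgroup (FreeGroup α)),
  (∀ h : L, (h : FreeGroup α) ∈ commutator (FreeGroup α) → h ∈ commutator L) →
  ∀ (Ω : Type) [MulAction (FreeGroup α) Ω] (v : Ω), (∀ x : Ω, x = v) →
  ∀ (Θ : Type) [MulAction (FreeGroup α) Θ] (o : Θ), (∀ g : FreeGroup α, act o g = o ↔ g ∈ L) →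
  R2s Z o (Set.univ : Set (Ω × Θ)) ∅

/-! ### The free group -/

/-- FLA (to prove: `theorem tFLA : UT.StSTK → StMIN → StCYK → StLV0 → StDUA → StTOW → StFLA`).

PROOF.  Let `η` be a stacking.  Suppose that for some `w ∈ L` in the normal closure of `s` MIN gives the
first alternative, `Sg Z C v k`, `v ∈ C`: then CYK applies (with `u' = v`) and gives the second claim.
Otherwise let `w ∈ L` be in the normal closure of `s`; MIN gives `Ω, v, E, C` with `Ini` and
`|C| ≤ |Bd|`.  From `Ini.nc`: there is a finite set `W` of words with `v ⋆ mk p ∈ C` for `p ∈ W` and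
`w ∈ closure {mk p * s * (mk p)⁻¹ | p ∈ W}` (closure induction, unions of finite sets; see `UT.fin_EXZ`).
`Θ := F ⧸ L`, `o := 1·L`, `f : Θ → Ω`, `f (g L) := g • v` (well defined: `h • v = v` for `h ∈ L` by `stab` for `h⁻¹`;
`Quotient.lift`), equivariant, `f o = v`.  `Tw Z o W v B D` with `B := {x | x.1 = f x.2}`, `D := {p | p ∈ C ∧ p ≠ v}`:
`inv`, `bas` clear; `fix` by `cpx.fix`; `cel`: `p = v` gives `(v, o) ∈ B`; `r2`: LV0 and DUA.  `Gen` gives a path
`q` in `Γ` with `mk q = w`, and `InG_InE` (for `Θ, o`, `g = 1`): `InE (CE Z o) o q`.  TOW. -/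
def StFLA : Prop := ∀ (α : Type) (Z : Cyc α) (L : Subgroup (FreeGroup α)) (h₁ h₂ : FreeGroup α),
  L = Subgroup.closure {h₁, h₂} → Z.s ∈ L → Gen L Z →
  (∀ w ∈ L, w ∈ Subgroup.normalClosure ({Z.s} : Set (FreeGroup α)) → w ∈ Ns L Z) ∨
  ∃ a ∈ L, ∀ h ∈ L, ∃ m : ℤ, h * (a ^ m)⁻¹ ∈ Ns L Z

/-- FLD (to prove: `theorem tFLD : StLVD → StDUA → StTOW → StFLD`).

PROOF.  Let `w ∈ L` be in the normal closure of `s`: by `UT.fin_EXZ` (and `UT.rep_EXZ`) there is a finite set `W` of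
words with `w ∈ closure {mk p * s * (mk p)⁻¹ | p ∈ W}`.  `Ω` := a one point set with the trivial action
(construct the `MulAction (FreeGroup α) PUnit`, or use the quotient `F ⧸ ⊤`), `Θ := F ⧸ L`, `o := 1·L`,
`B := univ`, `D := ∅`: `Tw` is clear with LVD and DUA.  `Gen` and `InG_InE` give `q`.  TOW. -/
def StFLD : Prop := ∀ (α : Type) (Z : Cyc α) (L : Subgroup (FreeGroup α)),
  (∀ h : L, (h : FreeGroup α) ∈ commutator (FreeGroup α) → h ∈ commutator L) →
  Z.s ∈ L → Gen L Z →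
  ∀ w ∈ L, w ∈ Subgroup.normalClosure ({Z.s} : Set (FreeGroup α)) → w ∈ Ns L Z

/-! ### Small modules for the final assembly -/

/-- RTZ (no dependence).  The root of a cyclically reduced word.

PROOF.  As in `UT/M_ROOT.lean` (which treats `u^k`, `k ≥ 2`): `N := L.length > 0`, `c i := L[i mod N]`; it
has the period `N`.  The set of `d : ℤ` with `c (i+d) = c i` for all `i` is a subgroup of `ℤ` containing `N > 0`,
so it is `n ℤ` with `n ≥ 1`, `n ∣ N`, `N = l n`.  `Z := (c, n)`. -/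
def StRTZ : Prop := ∀ (α : Type) (L : List (α × Bool)), L ≠ [] →
  (∀ p ∈ L.zip L.tail, ¬ (p.1.1 = p.2.1 ∧ p.1.2 ≠ p.2.2)) →
  (∀ a b : α × Bool, L.head? = some a → L.getLast? = some b → ¬ (a.1 = b.1 ∧ a.2 ≠ b.2)) →
  ∃ (Z : Cyc α) (l : ℕ), 1 ≤ l ∧ L = seg Z.c 0 (l * Z.n)

/-- CYG (no dependence).  Cyclic groups are one-relator groups.

PROOF.  `f : FreeGroup (Fin 1) →* U`, the generator goes to `y`, is surjective.  `FreeGroup (Fin 1)` consists of the
powers of its generator `x`; the set of `m : ℤ` with `y^m = 1` is `d ℤ`, so `ker f` is the set of powers of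
`x^d`, which is the normal closure of `{x^d}` (the group is commutative).
`PresentedGroup S = FreeGroup ⧸ normalClosure S`; `QuotientGroup.quotientKerEquivOfSurjective`.  (Or use
`UT.tPRES` with `H = FreeGroup (Fin 1)`, `e = refl`, `k = 1`.) -/
def StCYG : Prop := ∀ (U : Type) [Group U] (y : U), (∀ x : U, ∃ m : ℤ, x = y ^ m) →
  ∃ s : FreeGroup (Fin 1), Nonempty (U ≃* PresentedGroup ({s} : Set (FreeGroup (Fin 1))))

end Pool.Agent.Helper96.GU
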