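import Pool.Agent.Helper96.GU.DefsF

/-!
Project GF (MP_2c90c1_al), statements of the modules, with proofs in the docstrings.  THEOREM: the
group of units of `Inv⟨A | r = 1⟩`, `r` cyclically reduced, is a one-relator group if some letter
occurs exactly once or twice in `r`.

Notation: `[w] = io r w`; `s, c, n, pre, mk, v ⋆ g` as in `St.lean`; `σ j = sg r Z j` (the value
`[seg c 0 (j mod n)]`, a right unit, periodic with period `n`, `σ 0 = 1`); `H = Hp r Z`, `N = NT r Z`;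
`hr` is the hypothesis `FreeMonoid.toList r = seg Z.c 0 Z.n`, so `mk (toList r) = s` (`mk_seg_s`) and
`[seg c 0 n] = 1` (`io_r`).  Lemmas in `DefsF.lean`: `RU_uniq` (right units with the same image in the free
group are equal), `RU_left`, `RU_cancel`, `RU_back`, `unit_invRev`, `RU_sg`, `sg_of_le`, `cell_path`, `ed_tl`, …; in
`UT/M_IM1.lean`: `one_IM1` (`[w]` right unit implies `[w][w⁻¹] = 1`), `two_IM1`; `RU_mul_IM2`.
-/

set_option autoImplicit false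

namespace Pool.Agent.Helper96.GU

open Pool.Agent.Helper96.UT

/-! ### The monoid -/

/-- TSC (no dependence).  The graph of right units is simply connected.

PROOF.  For words `u, v` let `u ≈ v` iff `[u] = [v]` and for all words `p` with `RU [p ++ u]`:
`mk (p ++ u) * (mk (p ++ v))⁻¹ ∈ N`.  Note `[p ++ u] = [p][u] = [p ++ v]`, so `RU [p ++ v]` as well; `≈` is an
equivalence relation.  It is a congruence (make it a `Con (FreeMonoid (α × Bool))`): `u ≈ v`, `u' ≈ v'`, `RU [p u u']`: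
`mk (p u u') (mk (p v v'))⁻¹ = (mk (p u u') (mk (p v u'))⁻¹) (mk (p v u') (mk (p v v'))⁻¹)`; the first factor is
`mk (p u) (mk (p v))⁻¹ ∈ N` (`RU [p u]` by `RU_left`), the second one is in `N` by `u' ≈ v'` for the word `p v`
(`RU [p v u']`, because `[p v u'] = [p u u']`).  It contains `Rel r`: in the first two cases the two words have
the same `mk`, so the element is `1`; for `r ~ 1`: `mk (p r) (mk p)⁻¹ = mk p * s * (mk p)⁻¹`, and
`[p] = [p][r] = [p r]` is a right unit: a generator of `N`.  So `conGen (Rel r) ≤ ≈` (`Con.conGen_le`), and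
`[w] = 1 = [ ]` gives `w ≈ []` (`Con.eq`); take `p = []`.  (Compare `UT/M_PSI.lean`, `io_grp`, and
`UT/M_IM2.lean`, `con_IM2`.) -/
def StTSC : Prop := ∀ (α : Type) (r : FreeMonoid (α × Bool)) (Z : Cyc α),
  FreeMonoid.toList r = seg Z.c 0 Z.n →
  ∀ w : List (α × Bool), io r w = 1 → FreeGroup.mk w ∈ NT r Z

/-- VNT (no dependence).  Elements of `N` have the value `1`.

PROOF.  `Subgroup.closure_induction`.  Generators: the word `p ++ seg c 0 n ++ invRev p` has the value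
`[p][r][p⁻¹] = [p][p⁻¹] = 1` (`one_IM1`), and `mk` as required.  `1`: the word `[]`.  Products: `w ++ w'`.
Inverses: `[w] = 1` is a right unit, so `1 = [w][w⁻¹] = [w⁻¹]` (`one_IM1`), the word `invRev w`. -/
def StVNT : Prop := ∀ (α : Type) (r : FreeMonoid (α × Bool)) (Z : Cyc α),
  FreeMonoid.toList r = seg Z.c 0 Z.n →
  ∀ g ∈ NT r Z, ∃ w : List (α × Bool), FreeGroup.mk w = g ∧ io r w = 1

/-- VUQ (to prove: `theorem tVUQ : StVNT → StVUQ`).  The vertices of a graph over the right units have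
well defined values.

PROOF.  `g := mk q * (mk q')⁻¹` fixes `v` (`v ⋆ g = (v ⋆ mk q) ⋆ (mk q')⁻¹ = v`, `act_inv_eq`), so `g ∈ N`; VNT
gives `w` with `mk w = g`, `[w] = 1`.  The word `w ++ q'` has the value `[q']`, a right unit, and
`mk (w ++ q') = mk q`, so `[q] = [w ++ q'] = [q']` by `RU_uniq`. -/
def StVUQ : Prop := ∀ (α : Type) (r : FreeMonoid (α × Bool)) (Z : Cyc α),
  FreeMonoid.toList r = seg Z.c 0 Z.n →
  ∀ (Ω : Type) [MulAction (FreeGroup α) Ω] (v : Ω) (E : Set (Ω × α)), Ov r Z v E →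
  ∀ q q' : List (α × Bool), InE E v q → InE E v q' →
    act v (FreeGroup.mk q) = act v (FreeGroup.mk q') → io r q = io r q'

/-- EXT (to prove: `theorem tEXT : StVNT → StEXT`).  Every element of `N` is closed in a complex over the
right units.

PROOF.  (Compare `EXI` in `St.lean`, proved in `Pool/Agent/Helper28/GU/M_EXI.lean`, and `TOW`, proved in
`Pool/Agent/Helper65/GU/M_TOW.lean`.)  There is a finite set `W` of words with `RU [p]` for `p ∈ W` and
`g ∈ L₁ := closure {mk p * s * (mk p)⁻¹ | p ∈ W}` (closure induction, unions of finite sets).  `L₁ ≤ N`.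
`Ω := F ⧸ L₁`, `v := 1·L₁`; `v ⋆ g = v ⋆ h ↔ g h⁻¹ ∈ L₁` (`UT.act_coset_eq_EXZ`).  `W' := {p ++ seg c 0 n | p ∈ W}`,
`E := EW W' v`, `C := {v ⋆ mk p | p ∈ W}`.
`Cpx`: `fix` clear; `sub`: as in TOW (the path `seg c 0 n` from `v ⋆ mk p` is in `E` by `InE_EW` and
`InE_append`; an edge `e(u,i)` equals `e(u, i mod n)`).
`Hh`: as in EXI (`{g | v ⋆ g = v ∧ Sa φ v g = 0}` is a subgroup containing `L₁`; every `x : Ω` is `v ⋆ g`).
The path `q₀`: the set of `g` with `v ⋆ g = v` and `∃ P, InE E v P ∧ mk P = g` is a subgroup containing the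
generators of `L₁` (path `p ++ seg c 0 n ++ invRev p`), as in TOW.
`Ov`: `stab`: `v ⋆ g = v` gives `g ∈ L₁ ≤ N`.  `ru`: induction on `q` (append at the end,
`List.reverseRecOn`); `q = []`: `RU_nil`.  Let `InE E v (q ++ [x])`; `RU [q]` by induction; the edge
`ed (v ⋆ mk q) x` is in `E`, so it equals `ed (vt v w i) w[i]` for some `w = p ++ seg c 0 n ∈ W'`, `i < w.length`.  Put
`y := w.take i`, `z := w[i]`: `vt v w i = v ⋆ mk y`, and `y ++ [z]` is a prefix of `w`, `[w] = [p][r] = [p]`, so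
`RU [y ++ [z]]`, `RU [y]` (`RU_left`).  `ed_eq`: either `v ⋆ mk q = v ⋆ mk y`, `x = z`; then `mk q * (mk y)⁻¹ ∈ L₁ ≤ N` has
a word `w₀` with `[w₀] = 1` (VNT), `[q] = [w₀ ++ y] = [y]` by `RU_uniq`, so `[q ++ [x]] = [y ++ [z]]` is a right
unit.  Or `v ⋆ mk q = (v ⋆ mk y) ⋆ lt z`, `x = bar z`; then `[q] = [y ++ [z]]` in the same way, and
`[q ++ [x]] = [y ++ [z] ++ [bar z]] = [y]` by `RU_back`. -/
def StEXT : Prop := ∀ (α : Type) (r : FreeMonoid (α × Bool)) (Z : Cyc α),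
  FreeMonoid.toList r = seg Z.c 0 Z.n → ∀ g ∈ NT r Z,
  ∃ (Ω : Type) (_ : MulAction (FreeGroup α) Ω) (v : Ω) (E : Set (Ω × α)) (C : Finset Ω),
    Ov r Z v E ∧ Cpx Z E C ∧ Hh Z E C v ∅ ∧ act v g = v ∧
    ∃ q₀ : List (α × Bool), InE E v q₀ ∧ FreeGroup.mk q₀ = g

/-- UNI (no dependence).  Above a maximal position there are only units.

PROOF.  `y⁻¹` = inverse of the unit `y`.  `σ a = (y⁻¹ x) σ b` and `y⁻¹ x` is a right unit (`RU_mul_IM2`), so
`Ge a b`, hence `Ge b a`: `σ b = x₂ σ a` with `x₂` a right unit.  `σ a = (y⁻¹ x x₂) σ a` gives `y⁻¹ x x₂ = 1`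
(`RU_cancel`, `RU (σ a)`), `σ b = (x₂ y⁻¹ x) σ b` gives `x₂ y⁻¹ x = 1`.  So `x₂ y⁻¹` is a left inverse of `x`; and
`x (x₂ y⁻¹) = y (y⁻¹ x x₂) y⁻¹ = 1`.  So `x` is a unit. -/
def StUNI : Prop := ∀ (α : Type) (r : FreeMonoid (α × Bool)) (Z : Cyc α),
  FreeMonoid.toList r = seg Z.c 0 Z.n → ∀ (x y : IM r) (a b : ℤ), IsUnit y → RU x →
  y * sg r Z a = x * sg r Z b → (Ge r Z a b → Ge r Z b a) → IsUnit x

/-- HPV (no dependence).  The elements of `H` have unit values.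

PROOF.  `B := {g | ∃ w, mk w = g ∧ IsUnit [w]}` is closed under products and inverses (`unit_invRev`) and
contains `1` and `s` (the word `seg c 0 n`, value `1`), hence all `s ^ q`, `q : ℤ`.  Generators of `H`:
`g = pre j (pre k)⁻¹`, `σ j = u σ k`.  Let `j' := j mod n`, `k' := k mod n` (natural numbers `< n`),
`j = j' + a n`, `k = k' + b n`: `pre j = s^a pre j'`, `pre k = s^b pre k'` (`Z.pre_add_mul`), so
`g = s^a (pre j' (pre k')⁻¹) s^(-b)`.  The word `seg c 0 j' ++ invRev (seg c 0 k')` has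
`mk = pre j' (pre k')⁻¹` (`mk_seg`) and the value `σ j [invRev (seg c 0 k')] = u σ k [invRev (seg c 0 k')] = u`
(`one_IM1`). -/
def StHPV : Prop := ∀ (α : Type) (r : FreeMonoid (α × Bool)) (Z : Cyc α),
  FreeMonoid.toList r = seg Z.c 0 Z.n →
  ∀ h ∈ Hp r Z, ∃ w : List (α × Bool), FreeGroup.mk w = h ∧ IsUnit (io r w)

/-- HPF (no dependence).  `H` is finitely generated.

PROOF.  `s ∈ H`: `j = n`, `k = 0`, `u = 1` (`σ n = σ 0` by `sg_add_mul`, `pre n = s`, `pre 0 = 1`).  `H` is generated by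
the finite set `{s} ∪ {pre j (pre k)⁻¹ | 0 ≤ j, k < n, ∃ unit u, σ j = u σ k}`: for arbitrary `j, k` write
`j = j' + a n`, `k = k' + b n`; `σ j = σ j'`, `σ k = σ k'` and `pre j (pre k)⁻¹ = s^a (pre j' (pre k')⁻¹) s^(-b)`.
(`Subgroup.FG`: a finite set with this closure.) -/
def StHPF : Prop := ∀ (α : Type) (r : FreeMonoid (α × Bool)) (Z : Cyc α),
  FreeMonoid.toList r = seg Z.c 0 Z.n → Z.s ∈ Hp r Z ∧ (Hp r Z).FG

/-- HPS (to prove: `theorem tHPS : UT.StPSI → StHPV → StTSC → StVNT → StHPS`).  The map from `H` onto the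
units.

PROOF.  For `h ∈ H` choose a word `w` with `mk w = h`, `[w]` a unit (HPV), `Ψ h := [w]` as a unit; it does not
depend on `w` (`RU_uniq`, `RU_unit`), so `Ψ` is multiplicative.  Surjective: UT.PSI gives for every unit `y`
an `h ∈ HU r` and a word `w` with `mk w = h`, `[w]` a unit equal to `y`; and `HU r ≤ H`: a generator
`mk ((toList r).take j)` with `[(toList r).take j]` a unit; `(toList r).take j = seg c 0 j'`, `j' = min j n`
(`take_seg`), `mk = pre j' (pre 0)⁻¹`, `σ j' = [seg c 0 j'] · σ 0` (`sg_of_le`, `sg_zero`).  Kernel: `Ψ h = 1` iff there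
is a word `w` with `mk w = h`, `[w] = 1`, iff `h ∈ N` (TSC; VNT). -/
def StHPS : Prop := ∀ (α : Type) (r : FreeMonoid (α × Bool)) (Z : Cyc α),
  FreeMonoid.toList r = seg Z.c 0 Z.n →
  ∃ Ψ : Hp r Z →* (IM r)ˣ, Function.Surjective Ψ ∧
    ∀ h : Hp r Z, Ψ h = 1 ↔ (h : FreeGroup α) ∈ NT r Z

/-- GNH (no dependence).  The elements of `H` are closed paths on the base cell of the coset graph.

PROOF.  The set of `h` with `o ⋆ h = o` and `∃ q, InE (CE Z o) o q ∧ mk q = h` is a subgroup: products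
(`InE_append`, `o ⋆ mk q = o`), inverses (`InE_invRev`).  Generators: `g = pre j (pre k)⁻¹ ∈ H`, so `o ⋆ g = o`
and `o ⋆ pre j = (o ⋆ g) ⋆ pre k = o ⋆ pre k`.  `cell_path` for `o`: a path from `o = o ⋆ pre 0` to
`o ⋆ pre j` with `mk = pre j`, and a path from `o ⋆ pre k` to `o ⋆ pre 0` with `mk = (pre k)⁻¹`; concatenate. -/
def StGNH : Prop := ∀ (α : Type) (r : FreeMonoid (α × Bool)) (Z : Cyc α),
  ∀ (Θ : Type) [MulAction (FreeGroup α) Θ] (o : Θ),
  (∀ g : FreeGroup α, act o g = o ↔ g ∈ Hp r Z) →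
  ∀ h ∈ Hp r Z, ∃ q : List (α × Bool), InE (CE Z o) o q ∧ FreeGroup.mk q = h

/-! ### Complexes -/

/-- NBD (no dependence).  All steps of a cell without beginnings of top arcs are top.

PROOF.  The first part of the proof of SNG (see `St.lean` and `Pool/Agent/Helper82/GU/M_SNG.lean`): all
vertices of `u` are `TopV`, and `TopV` implies `TopE` (`topVE_TOP` in `Pool/Agent/Helper82/GU/M_TOP.lean`). -/
def StNBD : Prop := ∀ (α : Type) (Z : Cyc α) (η : Stk Z) (Ω : Type)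
  [MulAction (FreeGroup α) Ω] (C : Finset Ω), (∀ u ∈ C, act u Z.s = u) →
  ∀ u ∈ C, (∀ i < Z.n, (u, i) ∉ Bd Z C η.η) → ∀ k : ℤ, TopE Z C η.η u k

/-- TEQ (no dependence).  Two steps of the same edge with the same height are equal.

PROOF.  By `ed_eq` either the steps have the same direction, `c k' = c k` and
`u' ⋆ pre k' = u ⋆ pre k`; then `tht k' = tht k` means `η k' = η k` or `η (k'+1) = η (k+1)`, so
`n ∣ k' - k` by `inj`, `u' ⋆ pre k' = u' ⋆ pre k` (`act_pre_per`) and `u' = u` (`act_inj`).  Or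
`c k' = bar (c k)`; then exactly one of `(c k).2`, `(c k').2` is true, and `tht k' = tht k` means
`η k' = η (k+1)` or `η (k'+1) = η k`, so `n ∣ k' - (k+1)` or `n ∣ k'+1 - k`; in the first case
`c k' = c (k+1)` (`per_mul`), `c (k+1) = bar (c k)` against `red`; in the second case
`c (k'+1) = c k`, `c k' = bar (c (k'+1))`, i.e. `c (k'+1) = bar (c k')`, against `red`. -/
def StTEQ : Prop := ∀ (α : Type) (Z : Cyc α) (η : Stk Z) (Ω : Type)
  [MulAction (FreeGroup α) Ω] (u u' : Ω) (k k' : ℤ), act u Z.s = u → act u' Z.s = u' →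
  ed (act u' (pre Z.c k')) (Z.c k') = ed (act u (pre Z.c k)) (Z.c k) →
  tht Z η.η k' = tht Z η.η k → (Z.n : ℤ) ∣ k' - k ∧ u' = u

/-- GDF (to prove: `theorem tGDF : StLA → StTOP → StNBD → StTEQ → StGDF`).  A cell with a free edge at the
lowest step of a letter.

PROOF.  As in the proof of GDQ (`Pool/Agent/Helper79/GU/M_GDQ.lean`), with the given stacking `η`: LA and
TOP give `|Bd| + 1 ≤ |C|`, so some `u ∈ C` has no `i < n` with `(u,i) ∈ Bd`.  By NBD all steps of `u` are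
`TopE`.  Let `(u',k')` be a step of the edge of `(u,m)`.  The letters agree: `(c k').1 = (c m).1` (second
components of `ed`, see `ed_tl`), so `tht m ≤ tht k'`, and `tht k' ≤ tht m` by `TopE`.  TEQ gives the claim. -/
def StGDF : Prop := ∀ (α : Type) (Z : Cyc α) (η : Stk Z) (Ω : Type) [MulAction (FreeGroup α) Ω]
  (E : Set (Ω × α)) (C : Finset Ω) (v : Ω), Cpx Z E C → Hh Z E C v ∅ → C.Nonempty →
  ∀ m : ℤ, (∀ j : ℤ, (Z.c j).1 = (Z.c m).1 → tht Z η.η m ≤ tht Z η.η j) →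
  ∃ u ∈ C, Fr Z C u m

/-- REF (no dependence).  Removal of a cell and a free edge.

PROOF.  This is REQ (`St.lean`, proved in `Pool/Agent/Helper36/GU/M_REQ.lean`) with `S = ∅` and with the
hypothesis `Fr` (the conclusion of FRE) instead of `Sg`; copy the proof. -/
def StREF : Prop := ∀ (α : Type) (Z : Cyc α) (Ω : Type) [MulAction (FreeGroup α) Ω]
  (E : Set (Ω × α)) (C : Finset Ω), Cpx Z E C → ∀ u ∈ C, ∀ m : ℤ, Fr Z C u m →
  ∀ C' : Finset Ω, (∀ x, x ∈ C' ↔ x ∈ C ∧ x ≠ u) →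
  Cpx Z (E \ {ed (act u (pre Z.c m)) (Z.c m)}) C' ∧
  ∀ v : Ω, Hh Z E C v ∅ → Hh Z (E \ {ed (act u (pre Z.c m)) (Z.c m)}) C' v ∅

/-- KEY (to prove: `theorem tKEY : StVUQ → StUNI → StHPV → StHPF → StKEY`).  If a path in the graph of `H`
traverses the edge of a maximal step of a cell then the cell is a unit cell.

PROOF.  `g := mk q`; `H` contains `s` (HPF), so `o ⋆ pre (k + b n) = o ⋆ pre k` (`act_pre_per` for `o`, `o ⋆ s = o`).
(1) Values on the cell.  `ed_eq` (from the step `(u,m)` to the step of `q`): either (A) `v ⋆ g = u ⋆ pre m`,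
`x = c m`, or (B) `v ⋆ g = u ⋆ pre (m+1)`, `x = bar (c m)`.  `cell_path` (`CE Z u ⊆ E`) from `v ⋆ g` to
`u = u ⋆ pre 0` gives a path `p` in `E` from `v` to `u` (`q ++ P`).  Let `X := [p]`, a right unit (`Ov.ru`).  For every
path `Q` in `E` from `v` with `v ⋆ mk Q = u ⋆ pre j`: `[Q] = X σ j`.  (VUQ for `Q` and `p ++ seg c 0 j'`, `j' = j mod n`,
which ends at `u ⋆ pre j' = u ⋆ pre j`; its value is `X [seg c 0 j'] = X σ j` by definition.)
(2) Values on the graph of `H`.  The last edge of `q ++ [x]` is in `CE Z o`: there is `k` with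
`ed (o ⋆ g) x = ed (o ⋆ pre k) (c k)`, so by `ed_eq` either (a) `o ⋆ g = o ⋆ pre k`, `x = c k`, or (b)
`o ⋆ g = o ⋆ pre (k+1)`, `x = bar (c k)`.  We may replace `k` by `k mod n` (periodicity of `c` and of
`o ⋆ pre`), so `0 ≤ k < n`, a natural number.  `h := g (pre k)⁻¹` in case (a), `g (pre (k+1))⁻¹` in case (b): `o ⋆ h = o`,
so `h ∈ H`; let `w_h` be a word of `h` with `Y := [w_h]` a unit (HPV).  The words `w_h ++ seg c 0 k` and
`w_h ++ seg c 0 (k+1)` have the values `Y σ k`, `Y σ (k+1)` (`sg_of_le`), which are right units, and the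
products `h pre k`, `h pre (k+1)`.  `[q]` and `[q ++ [x]]` are right units (`Ov.ru`).  By `RU_uniq`: in
case (a) `[q] = Y σ k`, `[q ++ [x]] = Y σ (k+1)`; in case (b) `[q] = Y σ (k+1)`, `[q ++ [x]] = Y σ k`
(`g * lt (bar (c k)) = h pre k`).
(3) In case (A) `[q] = X σ m`, `[q ++ [x]] = X σ (m+1)`; in case (B) `[q] = X σ (m+1)`, `[q ++ [x]] = X σ m` (by (1)).
(4) In all four cases `Y σ (tl k) = X σ (tl m)`: (A)(a) and (B)(b): `c k = c m`, `tl k - k = tl m - m`;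
(A)(b) and (B)(a): `c k = bar (c m)`, exactly one of the two letters is positive, e.g. (A)(b),
`(c m).2 = true`: `tl m = m`, `tl k = k + 1`.  Also `(c k).1 = (c m).1`.  `Mx` and UNI (`a = tl k`, `b = tl m`): `X` is a
unit.
(5) Now `σ k = (Y⁻¹ X) σ m` in the case (A)(a), so `pre k (pre m)⁻¹ ∈ H` and
`g (pre m)⁻¹ = h (pre k (pre m)⁻¹) ∈ H`.  (A)(b): `σ (k+1) = (Y⁻¹ X) σ m`, `pre (k+1) (pre m)⁻¹ ∈ H`,
`g (pre m)⁻¹ = h pre (k+1) (pre m)⁻¹ ∈ H`.  (B) in the same way with `m + 1` instead of `m`. -/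
def StKEY : Prop := ∀ (α : Type) (r : FreeMonoid (α × Bool)) (Z : Cyc α),
  FreeMonoid.toList r = seg Z.c 0 Z.n →
  ∀ (Ω Θ : Type) [MulAction (FreeGroup α) Ω] [MulAction (FreeGroup α) Θ] (o : Θ),
  (∀ g : FreeGroup α, act o g = o ↔ g ∈ Hp r Z) →
  ∀ (v : Ω) (E : Set (Ω × α)) (C : Finset Ω), Ov r Z v E → Cpx Z E C →
  ∀ u ∈ C, ∀ m : ℤ, Mx r Z m → ∀ (q : List (α × Bool)) (x : α × Bool),
  InE E v (q ++ [x]) → InE (CE Z o) o (q ++ [x]) →
  ed (act v (FreeGroup.mk q)) x = ed (act u (pre Z.c m)) (Z.c m) →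
  (x = Z.c m ∧ act v (FreeGroup.mk q) = act u (pre Z.c m) ∧
      FreeGroup.mk q * (pre Z.c m)⁻¹ ∈ Hp r Z) ∨
    (x = bar (Z.c m) ∧ act v (FreeGroup.mk q) = act u (pre Z.c (m + 1)) ∧
      FreeGroup.mk q * (pre Z.c (m + 1))⁻¹ ∈ Hp r Z)

/-- PSH (to prove: `theorem tPSH : StKEY → StHPF → StPSH`).  Pushing a path off a free edge.

PROOF.  `e₀` = edge of the step `(u,m)`, `E' := E \ {e₀}`, `N_H := Ns (Hp r Z) Z ≤ H` (`s ∈ H` by HPF).  Induction on
`q` (append at the end, `List.reverseRecOn`); `q = []` clear.  Step `q ++ [x]`, with `q'` for `q`; `g := mk q`,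
`g' := mk q'`, `g g'⁻¹ ∈ N_H ≤ H`, so `o ⋆ g' = o ⋆ g` (`g' = (g g'⁻¹)⁻¹ g`).
Case `ed (v ⋆ g) x ≠ e₀`: take `q' ++ [x]`: `v ⋆ g' = v ⋆ g`, `o ⋆ g' = o ⋆ g`, so it is a path in `E'` and in
`CE Z o`; `g lt x (g' lt x)⁻¹ = g g'⁻¹`.
Case `ed (v ⋆ g) x = e₀`: KEY.  First alternative: `x = c m`, `v ⋆ g = u ⋆ pre m`, `k := g (pre m)⁻¹ ∈ H`.  Let
`P := invRev (seg c (m+1-n) (n-1))`; it is a path on the cell `u` from `u ⋆ pre m` to
`u ⋆ pre (m+1-n) = u ⋆ pre (m+1)` which does not have the edge `e₀` (`Fr`: its steps `j` are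
`m+1-n ≤ j < m`, so `n ∤ j - m`; `InE_seg`, `InE_invRev`), and it is a path in `CE Z o` from
`o ⋆ g' = o ⋆ g = o ⋆ pre m` (`g = k pre m`, `k ∈ H`; `InE_cell`, `InE_invRev`).  Take `q' ++ P`.
`mk P = (pre m)⁻¹ pre (m+1-n) = (pre m)⁻¹ s⁻¹ pre m lt (c m)` (`mk_seg`, `Z.pre_add`, `pre_succ`), so
`g lt x (g' mk P)⁻¹ = g (pre m)⁻¹ s pre m g'⁻¹ = (k s k⁻¹) (g g'⁻¹) ∈ N_H`.
Second alternative: `x = bar (c m)`, `v ⋆ g = u ⋆ pre (m+1) = u ⋆ pre (m+1-n)`, `k := g (pre (m+1))⁻¹ ∈ H`: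
`P := seg c (m+1-n) (n-1)`, from `u ⋆ pre (m+1-n)` to `u ⋆ pre m`; `o ⋆ g' = o ⋆ g = o ⋆ pre (m+1) =
o ⋆ pre (m+1-n)` (`s ∈ H`).  `mk P = (pre (m+1))⁻¹ s pre m`, and
`g lt x (g' mk P)⁻¹ = g (lt (c m))⁻¹ (pre m)⁻¹ s⁻¹ pre (m+1) g'⁻¹ = (k s⁻¹ k⁻¹) (g g'⁻¹) ∈ N_H`. -/
def StPSH : Prop := ∀ (α : Type) (r : FreeMonoid (α × Bool)) (Z : Cyc α),
  FreeMonoid.toList r = seg Z.c 0 Z.n →
  ∀ (Ω Θ : Type) [MulAction (FreeGroup α) Ω] [MulAction (FreeGroup α) Θ] (o : Θ),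
  (∀ g : FreeGroup α, act o g = o ↔ g ∈ Hp r Z) →
  ∀ (v : Ω) (E : Set (Ω × α)) (C : Finset Ω), Ov r Z v E → Cpx Z E C →
  ∀ u ∈ C, ∀ m : ℤ, Fr Z C u m → Mx r Z m → ∀ q : List (α × Bool),
  InE E v q → InE (CE Z o) o q →
  ∃ q' : List (α × Bool), InE (E \ {ed (act u (pre Z.c m)) (Z.c m)}) v q' ∧
    InE (CE Z o) o q' ∧ act v (FreeGroup.mk q') = act v (FreeGroup.mk q) ∧
    FreeGroup.mk q * (FreeGroup.mk q')⁻¹ ∈ Ns (Hp r Z) Z

/-- INF (to prove: `theorem tINF : StGDF → StREF → StPSH → StFOR → StINF`).  The induction.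

PROOF.  Induction on `C.card` (for all `E`, `C`, `q`).  `C = ∅`: FOR gives `mk q = 1`.  Otherwise GDF for the given
`η`, `m` gives `u ∈ C` with `Fr Z C u m`; `C' := C.erase u`, `E' := E \ {e₀}`.  PSH gives `q'`, closed at `v`; REF gives
`Cpx` and `Hh` for `E'`, `C'`; `Ov` for `E'` by `InE_mono`.  By induction `mk q' ∈ Ns`, and
`mk q = (mk q (mk q')⁻¹) mk q'`. -/
def StINF : Prop := ∀ (α : Type) (r : FreeMonoid (α × Bool)) (Z : Cyc α) (η : Stk Z) (m : ℤ),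
  FreeMonoid.toList r = seg Z.c 0 Z.n →
  (∀ j : ℤ, (Z.c j).1 = (Z.c m).1 → tht Z η.η m ≤ tht Z η.η j) → Mx r Z m →
  ∀ (Ω Θ : Type) [MulAction (FreeGroup α) Ω] [MulAction (FreeGroup α) Θ] (o : Θ),
  (∀ g : FreeGroup α, act o g = o ↔ g ∈ Hp r Z) →
  ∀ (v : Ω) (E : Set (Ω × α)) (C : Finset Ω), Ov r Z v E → Cpx Z E C → Hh Z E C v ∅ →
  ∀ q : List (α × Bool), InE E v q → InE (CE Z o) o q → act v (FreeGroup.mk q) = v →
    FreeGroup.mk q ∈ Ns (Hp r Z) Z

/-- INH (to prove: `theorem tINH : StINF → StEXT → StGNH → StINH`).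

PROOF.  `Θ := F ⧸ H`, `o := 1·H` (`UT.act_coset_eq_EXZ`).  EXT for `h ∈ N` gives `Ω, v, E, C, q₀`; GNH gives a path
`q₁` in `CE Z o` with `mk q₁ = h`.  `common_red`: a path `q` with `mk q = h`, `InE E v q`, `InE (CE Z o) o q`.  INF. -/
def StINH : Prop := ∀ (α : Type) (r : FreeMonoid (α × Bool)) (Z : Cyc α) (η : Stk Z) (m : ℤ),
  FreeMonoid.toList r = seg Z.c 0 Z.n →
  (∀ j : ℤ, (Z.c j).1 = (Z.c m).1 → tht Z η.η m ≤ tht Z η.η j) → Mx r Z m →
  ∀ h ∈ Hp r Z, h ∈ NT r Z → h ∈ Ns (Hp r Z) Z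

/-- CHO (to prove: `theorem tCHO : UT.StSTK → StCHO`).  The choice of the step.

PROOF.  All notions depend on the steps modulo `n`: `tl (j + q n) = tl j + q n` (`tl_add_mul`), `σ` periodic
(`sg_add_mul`), so `Ge (tl j) (tl k)` depends only on `j, k mod n`; `tht` is periodic (`η.per`, `Z.per_mul`).
Let `m ∈ {i₁, i₂}` be maximal: if `Ge (tl i₂) (tl i₁) → Ge (tl i₁) (tl i₂)` then `Mx i₁` (a step `j` with the letter
`a` is congruent to `i₁`, and then the claim is trivial, or to `i₂`), `m := i₁`; otherwise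
`¬ Ge (tl i₁) (tl i₂)`, and `Mx i₂`, `m := i₂`.  Let `i'` be the other one of the two and `η` a stacking.  If
`tht η m ≤ tht η i'` take `η`; otherwise take `negStk η` (`tht (-η) = - tht η`). -/
def StCHO : Prop := ∀ (α : Type) (r : FreeMonoid (α × Bool)) (Z : Cyc α) (a : α) (i₁ i₂ : ℤ),
  (Z.c i₁).1 = a → (Z.c i₂).1 = a →
  (∀ j : ℤ, (Z.c j).1 = a → (Z.n : ℤ) ∣ j - i₁ ∨ (Z.n : ℤ) ∣ j - i₂) →
  ∃ (η : Stk Z) (m : ℤ), (∀ j : ℤ, (Z.c j).1 = (Z.c m).1 → tht Z η.η m ≤ tht Z η.η j) ∧ Mx r Z m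

/-- CTP (no dependence).  The steps of a letter which occurs once or twice.

PROOF.  `List.countP` over `seg c 0 n = (List.range n).map …` is the number of `i < n` with `(c i).1 = a`
(e.g. the card of `(Finset.range n).filter`).  A set with one or two elements is `{i₁, i₂}` (possibly
`i₁ = i₂`); a step `j : ℤ` with letter `a` is congruent to `j mod n`, which is in the set. -/
def StCTP : Prop := ∀ (α : Type) [DecidableEq α] (Z : Cyc α) (a : α),
  1 ≤ (seg Z.c 0 Z.n).countP (fun x => x.1 = a) → (seg Z.c 0 Z.n).countP (fun x => x.1 = a) ≤ 2 →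
  ∃ i₁ i₂ : ℤ, (Z.c i₁).1 = a ∧ (Z.c i₂).1 = a ∧
    ∀ j : ℤ, (Z.c j).1 = a → (Z.n : ℤ) ∣ j - i₁ ∨ (Z.n : ℤ) ∣ j - i₂

end Pool.Agent.Helper96.GU
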